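import Pool.Agent.P.MP_3a5611_an.ODE

/-!
The quantitative two-sided estimate `1 - m a ≤ A 0 < 1` for `a = γ ^ (-p/2)` small.
-/

open Filter Topology Set

set_option linter.dupNamespace false

namespace Pool.Agent.P.MP_3a5611_an

/-- The bracket in the final estimate. -/
noncomputable def bracket (M a : ℝ) : ℝ :=
  M * (M - 1) * (1 - (M + 1) * a) - (M + 1) * ((1 / (2 * M) + (2 * M + 2) * a) * (1 + a) / 2)
    - 240 * (4 * M) ^ 5 * a - 768 * Real.exp (2 * M + 5) * M ^ 3 * a ^ 2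

lemma small (M : ℝ) (hM : 2 ≤ M) : ∀ᶠ a in 𝓝 (0 : ℝ), 4 * M * a < 1 ∧
    120 * (4 * M) ^ 5 * a ^ 3 < 1 ∧ (2 * M + 2) * a < 3 / 4 ∧ 0 < bracket M a := by
  refine Eventually.and ?_ (Eventually.and ?_ (Eventually.and ?_ ?_))
  · apply ContinuousAt.eventually_lt (by fun_prop) continuousAt_const; simp
  · apply ContinuousAt.eventually_lt (by fun_prop) continuousAt_const; simp
  · apply ContinuousAt.eventually_lt (by fun_prop) continuousAt_const; simp
  · apply ContinuousAt.eventually_lt continuousAt_const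
    · unfold bracket; fun_prop
    · have h1 : 1 / (2 * M) ≤ 1 / 4 := one_div_le_one_div_of_le (by norm_num) (by linarith)
      have h2 : (M + 1) * (1 / (2 * M)) ≤ (M + 1) * (1 / 4) := by gcongr
      simp only [bracket, mul_zero, sub_zero, add_zero, mul_one, ne_eq, OfNat.ofNat_ne_zero,
        not_false_eq_true, zero_pow]
      nlinarith

lemma exp_neg_le (x : ℝ) (hx : 0 < x) (k : ℕ) : Real.exp (-x) ≤ k.factorial / x ^ k := by
  have h := Real.pow_div_factorial_le_exp x hx.le k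
  have hk : (0 : ℝ) < k.factorial := by exact_mod_cast k.factorial_pos
  rw [Real.exp_neg, le_div_iff₀ (pow_pos hx _), inv_mul_le_iff₀ (Real.exp_pos _)]
  rw [div_le_iff₀ hk] at h
  exact h

lemma K_bound {M N d σ : ℝ} {k : ℕ} (hk : 3 ≤ k) (hM : 0 < M) (hN : 0 < N) (hd0 : 0 ≤ d)
    (hd : d ≤ 1 / (2 * M)) (h0 : 0 < σ) (h1 : σ ≤ 1) :
    σ ^ k * Real.exp (N * (1 - σ) * (d - σ / M)) ≤ 1 + Real.exp (N * d) * (6 * (2 * M / N) ^ 3) := by
  have hpos : 0 ≤ Real.exp (N * d) * (6 * (2 * M / N) ^ 3) := by positivity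
  rcases le_total (1 / 2) σ with h | h
  · have a1 : σ ^ k ≤ 1 := pow_le_one₀ h0.le h1
    have a2 : d - σ / M ≤ 0 := by
      have : 1 / (2 * M) ≤ σ / M := by
        rw [div_le_div_iff₀ (by positivity) hM]; nlinarith
      linarith
    have a3 : Real.exp (N * (1 - σ) * (d - σ / M)) ≤ 1 := by
      rw [Real.exp_le_one_iff]
      exact mul_nonpos_of_nonneg_of_nonpos (mul_nonneg hN.le (by linarith)) a2
    have : σ ^ k * Real.exp (N * (1 - σ) * (d - σ / M)) ≤ 1 * 1 := by gcongr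
    linarith
  · have a1 : σ ^ k ≤ σ ^ 3 := pow_le_pow_of_le_one h0.le h1 hk
    have a2 : N * (1 - σ) * (d - σ / M) ≤ N * d + -(N * σ / (2 * M)) := by
      have b1 : (1 - σ) * d ≤ d := by nlinarith
      have b2 : σ / (2 * M) ≤ (1 - σ) * (σ / M) := by
        have : σ / (2 * M) = (1 / 2) * (σ / M) := by field_simp
        rw [this]; gcongr; linarith
      have : N * (1 - σ) * (d - σ / M) = N * ((1 - σ) * d) - N * ((1 - σ) * (σ / M)) := by ring
      rw [this]
      have b3 : N * ((1 - σ) * d) ≤ N * d := by gcongr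
      have b4 : N * (σ / (2 * M)) ≤ N * ((1 - σ) * (σ / M)) := by gcongr
      have b5 : N * σ / (2 * M) = N * (σ / (2 * M)) := by ring
      linarith
    have a3 := exp_neg_le (N * σ / (2 * M)) (by positivity) 3
    have a4 : σ ^ 3 * Real.exp (-(N * σ / (2 * M))) ≤ 6 * (2 * M / N) ^ 3 := by
      refine (mul_le_mul_of_nonneg_left a3 (by positivity)).trans (le_of_eq ?_)
      simp only [Nat.factorial]
      field_simp
      norm_num
    calc σ ^ k * Real.exp (N * (1 - σ) * (d - σ / M))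
        ≤ σ ^ 3 * Real.exp (N * d + -(N * σ / (2 * M))) := by gcongr
      _ = Real.exp (N * d) * (σ ^ 3 * Real.exp (-(N * σ / (2 * M)))) := by
          rw [Real.exp_add]; ring
      _ ≤ Real.exp (N * d) * (6 * (2 * M / N) ^ 3) := by gcongr
      _ ≤ _ := by linarith

namespace Data

variable {m : ℕ} (D : Data m)

lemma exists_level (c : ℝ) (h0 : 0 < c) (h1 : c < D.γ) : ∃ t, 0 < t ∧ D.y t = c := by
  obtain ⟨s, hs, hs0⟩ := ((D.ly.eventually (lt_mem_nhds h1)).and (eventually_gt_atTop 0)).exists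
  have hc : ContinuousOn D.y (Icc 0 s) := by
    intro r hr
    rcases hr.1.eq_or_lt with h | h
    · rw [← h]; exact D.cy.mono Icc_subset_Ici_self
    · exact (D.dy r h).continuousAt.continuousWithinAt
  obtain ⟨t, ht, hty⟩ := intermediate_value_Icc hs0.le hc (show c ∈ Icc (D.y 0) (D.y s) from
    ⟨by rw [D.y0]; exact h0.le, hs.le⟩)
  refine ⟨t, ?_, hty⟩
  rcases ht.1.eq_or_lt with h | h
  · rw [← h, D.y0] at hty; linarith
  · exact h

theorem two_sided (a : ℝ) (ha : 0 < a) (hΓ : D.κ * D.γ * a ^ 2 = 1)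
    (h1 : 4 * m * a < 1) (h2 : 120 * (4 * m) ^ 5 * a ^ 3 < 1) (h3 : (2 * m + 2) * a < 3 / 4)
    (h4 : 0 < bracket m a) : 1 - m * a ≤ D.A 0 ∧ D.A 0 < 1 := by
  have hM := D.mpos; have hM2 := D.m2
  have hγ := D.γpos; have hκ := D.κpos
  have ha8 : a < 1 / 8 := by nlinarith
  obtain ⟨t, ht, hy⟩ := D.exists_level (D.γ * (1 - a / 2)) (by nlinarith) (by nlinarith)
  have hyt := D.ypos t ht; have hzt := D.zpos t ht; have hqt := D.qpos t ht
  have hwt := D.wpos t ht; have hPt := D.Ppos t ht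
  have hm0 : m ≠ 0 := by have := D.hm; omega
  set X := D.P t / D.w t with hX
  set R := D.Q t / D.w t with hR
  set N := D.y t * D.q t with hN
  have hX0 : 0 < X := div_pos hPt hwt
  have hR0 : 0 ≤ R := div_nonneg (D.Q_nonneg t ht) hwt.le
  have hqz : D.q t * D.z t = 1 - (X + R) := by rw [D.qz_eq t ht]; ring
  have hqz0 : 0 < D.q t * D.z t := mul_pos hqt hzt
  have hqz1 : D.q t * D.z t ≤ 1 := by linarith
  have hyw : D.y t * D.w t = (1 - (X + R)) ^ m := by rw [D.yw_eq t ht, hqz]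
  have hyw1 : D.y t * D.w t ≤ 1 := by rw [D.yw_eq t ht]; exact pow_le_one₀ hqz0.le hqz1
  have hN0 : 0 < N := mul_pos hyt hqt
  have hN1 : N * a ^ 2 ≤ 1 := by
    rw [← hΓ, hN, mul_comm (D.y t)]
    have := D.y_le t ht; have := D.q_le t ht
    gcongr
  have hq1 : D.κ * (1 - a / 2) ≤ D.q t := by
    rw [← pow_le_pow_iff_left₀ (by nlinarith) hqt.le hm0, mul_pow, D.hκ, D.hqy t ht, hy]
    apply mul_le_mul_of_nonneg_left _ hγ.le
    exact pow_le_of_le_one (by linarith) (by linarith) hm0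
  have hN2 : 1 / 2 ≤ N * a ^ 2 := by
    have b1 : D.γ * (1 - a / 2) * (D.κ * (1 - a / 2)) ≤ N := by
      rw [hN, hy]; gcongr; nlinarith
    have b2 : D.γ * (1 - a / 2) * (D.κ * (1 - a / 2)) * a ^ 2 = (1 - a / 2) ^ 2 := by
      have : D.γ * (1 - a / 2) * (D.κ * (1 - a / 2)) * a ^ 2
        = (D.κ * D.γ * a ^ 2) * (1 - a / 2) ^ 2 := by ring
      rw [this, hΓ, one_mul]
    have b3 : D.γ * (1 - a / 2) * (D.κ * (1 - a / 2)) * a ^ 2 ≤ N * a ^ 2 := by gcongr
    nlinarith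
  have hNinv : 1 / N ≤ 2 * a ^ 2 := by rw [div_le_iff₀ hN0]; linarith
  -- the bound on X
  have hXe : X ≤ Real.exp (-((1 - a) / (2 * m * a))) := by
    refine (D.X_le t ht (by rw [hy]; nlinarith)).trans (le_of_eq ?_)
    congr 2
    rw [hy]
    have : D.κ / D.γ * (2 * (D.γ * (1 - a / 2)) - D.γ) * (D.γ - D.γ * (1 - a / 2)) / m
        = (D.κ * D.γ * a ^ 2) * ((1 - a) / (2 * m * a)) := by
      field_simp; ring
    rw [this, hΓ, one_mul]
  have hX5 : X ≤ 120 * (4 * m) ^ 5 * a ^ 5 := by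
    have b1 : 1 / (4 * m * a) ≤ (1 - a) / (2 * m * a) := by
      rw [div_le_div_iff₀ (by positivity) (by positivity)]
      have : 0 < m * a := by positivity
      nlinarith
    have b2 := exp_neg_le (1 / (4 * m * a)) (by positivity) 5
    have b3 : Real.exp (-((1 - a) / (2 * m * a))) ≤ Real.exp (-(1 / (4 * m * a))) := by
      gcongr
    refine hXe.trans (b3.trans (b2.trans (le_of_eq ?_)))
    simp only [Nat.factorial]
    field_simp
    norm_num
  have hXa : X ≤ a ^ 2 := by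
    have : 120 * (4 * m) ^ 5 * a ^ 5 = (120 * (4 * m) ^ 5 * a ^ 3) * a ^ 2 := by ring
    have h5 : 0 < a ^ 2 := by positivity
    nlinarith only [this, h5, h2, hX5]
  have hu : (D.γ - D.y t) / D.y t ≤ a / 2 * (1 + a) := by
    rw [div_le_iff₀ hyt, hy]
    have : 0 ≤ D.γ * a ^ 2 * (1 - a) := by
      have : 0 ≤ 1 - a := by linarith
      positivity
    nlinarith only [this]
  have hu0 : 0 ≤ (D.γ - D.y t) / D.y t := div_nonneg (by have := D.y_le t ht; linarith) hyt.le
  have hRle : R ≤ 2 * m * a ^ 2 + a / 2 * (1 + a) / m := by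
    have b1 : R ≤ m * (D.q t * D.z t) * (1 / N) + (D.q t * D.z t) * ((D.γ - D.y t) / D.y t) / m := by
      rw [hR, div_le_iff₀ hwt]
      refine (D.Q_le t ht).trans (le_of_eq ?_)
      rw [hN]
      field_simp
    have b2 : m * (D.q t * D.z t) * (1 / N) ≤ m * 1 * (2 * a ^ 2) := by gcongr
    have b3 : (D.q t * D.z t) * ((D.γ - D.y t) / D.y t) / m ≤ 1 * (a / 2 * (1 + a)) / m := by
      gcongr
    rw [one_mul] at b3
    linarith only [b1, b2, b3]
  have hminv : 1 / (2 * (m : ℝ)) ≤ 1 / 4 := one_div_le_one_div_of_le (by norm_num) (by linarith)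
  have hδ : X + R ≤ a * (1 / (2 * m)) + (2 * m + 2) * a ^ 2 := by
    have : a / 2 * (1 + a) / m = a * (1 / (2 * m)) + a ^ 2 * (1 / (2 * m)) := by
      field_simp
    have b : a ^ 2 * (1 / (2 * m)) ≤ a ^ 2 * 1 := by gcongr; linarith
    linarith only [this, b, hRle, hXa]
  have hδa : X + R ≤ a := by
    have b1 : a * (1 / (2 * m)) ≤ a * (1 / 4) := by gcongr
    have b2 : (2 * m + 2) * a ^ 2 ≤ 3 / 4 * a := by nlinarith only [h3, ha]
    linarith only [b1, b2, hδ]
  have hRa : R ≤ a * (1 / (2 * m) + (2 * m + 2) * a) := by linarith only [hδ, hX0]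
  constructor
  · refine le_trans ?_ (D.le_A0 t ht)
    rw [hyw]
    have := one_add_mul_le_pow (a := -(X + R)) (by linarith) m
    rw [← sub_eq_add_neg] at this
    have b : m * (X + R) ≤ m * a := by gcongr
    linarith only [this, b]
  set d := 1 / (D.q t * D.z t) - 1 with hd
  have hd0 : 0 ≤ d := by
    rw [hd, sub_nonneg, le_div_iff₀ hqz0]; linarith
  have hd1 : d ≤ (X + R) + 2 * a ^ 2 := by
    rw [hd, sub_le_iff_le_add, div_le_iff₀ hqz0, hqz]
    have b1 : (X + R) ^ 2 ≤ a ^ 2 := by gcongr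
    have b2 : a ^ 2 * (X + R) ≤ a ^ 2 * (1 / 8) := by gcongr; linarith only [hδa, ha8]
    have b3 : 0 ≤ a ^ 2 := by positivity
    linarith only [b1, b2, b3]
  have hd2 : d ≤ 1 / (2 * m) := by
    have : 2 * a ≤ 1 / (2 * m) := by rw [le_div_iff₀ (by positivity)]; linarith only [h1]
    nlinarith only [this, hd1, hδa, ha, ha8]
  set K := 1 + Real.exp (N * d) * (6 * (2 * m / N) ^ 3) with hK
  have hA0 := D.A0_le t ht ((D.y t * D.P t / D.z t) * K) (fun s hs hst => by
    refine (D.yP_le t ht s hs hst).trans ?_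
    have hzs := D.zpos s hs
    have := K_bound (M := m) (N := N) (d := d) (σ := D.y s / D.y t) (k := m + 1)
      (by have := D.hm; omega) hM hN0 hd0 hd2 (div_pos (D.ypos s hs) hyt)
      ((div_le_one hyt).2 (D.y_mono hs hst))
    gcongr)
  have hA := D.A_le t ht
  have hJ := D.yw_mul_le t ht
  -- the negative term
  have e1 : (1 - (m + 1) * a) * a ^ 2 ≤ D.z t * D.w t := by
    have b1 : D.z t * D.w t = (1 - (X + R)) ^ (m + 1) * (1 / N) := by
      rw [pow_succ, ← hyw, ← hqz, hN]; field_simp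
    have b2 : a ^ 2 ≤ 1 / N := by rw [le_div_iff₀ hN0]; linarith
    have b3 := one_add_mul_le_pow (a := -(X + R)) (by linarith) (m + 1)
    rw [← sub_eq_add_neg] at b3
    push_cast at b3
    have b5 : (m + 1) * (X + R) ≤ (m + 1) * a := by gcongr
    have b4 : 1 - (m + 1) * a ≤ (1 - (X + R)) ^ (m + 1) := by linarith only [b3, b5]
    rw [b1]
    have : 0 ≤ 1 - (m + 1) * a := by linarith only [h1, ha8]
    gcongr
    exact this.trans b4
  have e2 : D.Q t * (D.γ - D.y t)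
      ≤ a ^ 2 * ((1 / (2 * m) + (2 * m + 2) * a) * (1 + a) / 2) := by
    have b1 : D.Q t * (D.γ - D.y t) = R * (D.y t * D.w t) * ((D.γ - D.y t) / D.y t) := by
      rw [hR]; field_simp
    rw [b1]
    calc R * (D.y t * D.w t) * ((D.γ - D.y t) / D.y t)
        ≤ (a * (1 / (2 * m) + (2 * m + 2) * a)) * 1 * (a / 2 * (1 + a)) := by gcongr
      _ = _ := by ring
  have e3 : X * Real.exp (N * d) ≤ Real.exp (2 * m + 5) := by
    have b1 : N * d ≤ 1 / (2 * m * a) + (2 * m + 4) := by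
      have c1 : d ≤ a ^ 2 * (1 / (2 * m * a) + (2 * m + 4)) := by
        have : a ^ 2 * (1 / (2 * m * a) + (2 * m + 4))
            = a * (1 / (2 * m)) + (2 * m + 4) * a ^ 2 := by field_simp
        rw [this]; linarith
      calc N * d ≤ N * (a ^ 2 * (1 / (2 * m * a) + (2 * m + 4))) := by gcongr
        _ = (N * a ^ 2) * (1 / (2 * m * a) + (2 * m + 4)) := by ring
        _ ≤ 1 * (1 / (2 * m * a) + (2 * m + 4)) := by gcongr
        _ = _ := one_mul _
    calc X * Real.exp (N * d)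
        ≤ Real.exp (-((1 - a) / (2 * m * a))) * Real.exp (1 / (2 * m * a) + (2 * m + 4)) := by
          gcongr
      _ = Real.exp (1 / (2 * m) + (2 * m + 4)) := by
          rw [← Real.exp_add]; congr 1; field_simp; ring
      _ ≤ _ := Real.exp_le_exp.2 (by linarith only [hminv])
  have e4 : D.y t * D.P t / D.z t * K * D.y t
      ≤ a ^ 2 * (240 * (4 * m) ^ 5 * a + 768 * Real.exp (2 * m + 5) * m ^ 3 * a ^ 2) := by
    have b1 : D.y t * D.P t / D.z t * K * D.y t
        = (D.y t * D.w t) * (1 / (D.q t * D.z t)) * (N * (X * K)) := by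
      rw [hX, hN]; field_simp
    have b2 : 1 / (D.q t * D.z t) ≤ 2 := by rw [div_le_iff₀ hqz0]; linarith
    have b3 : N * (X * K) = N * X + (X * Real.exp (N * d)) * (48 * m ^ 3 * (1 / N) ^ 2) := by
      rw [hK]; field_simp; ring
    have b4 : N * X ≤ 120 * (4 * m) ^ 5 * a ^ 3 := by
      calc N * X ≤ N * (120 * (4 * m) ^ 5 * a ^ 5) := by gcongr
        _ = (N * a ^ 2) * (120 * (4 * m) ^ 5 * a ^ 3) := by ring
        _ ≤ 1 * (120 * (4 * m) ^ 5 * a ^ 3) := by gcongr
        _ = _ := one_mul _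
    have b5 : (X * Real.exp (N * d)) * (48 * m ^ 3 * (1 / N) ^ 2)
        ≤ Real.exp (2 * m + 5) * (48 * m ^ 3 * (2 * a ^ 2) ^ 2) := by gcongr
    have b6 : 0 ≤ N * (X * K) := by positivity
    rw [b1]
    calc (D.y t * D.w t) * (1 / (D.q t * D.z t)) * (N * (X * K)) ≤ 1 * 2 * (N * (X * K)) := by
          gcongr
      _ ≤ _ := by
          have b7 : 0 ≤ Real.exp (2 * m + 5) * m ^ 3 * a ^ 4 := by positivity
          rw [b3]; linarith only [b4, b5, b7]
  have e5 : (m : ℝ) * (m - 1) * ((1 - (m + 1) * a) * a ^ 2) ≤ m * (m - 1) * (D.z t * D.w t) := by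
    have : (0 : ℝ) ≤ m * (m - 1) := by nlinarith only [hM2]
    gcongr
  have e6 : ((m : ℝ) + 1) * D.Q t * (D.γ - D.y t)
      ≤ (m + 1) * (a ^ 2 * ((1 / (2 * m) + (2 * m + 2) * a) * (1 + a) / 2)) := by
    rw [mul_assoc]; gcongr
  have e7 : 0 < a ^ 2 * bracket m a := by positivity
  unfold bracket at e7
  linarith only [e7, e6, e5, e4, hA0, hA, hJ]

end Data

/-- For every `η > 0`, all bounded solutions with large supremum have energy in `[1 - η, 1)`. -/
theorem ode_main (m : ℕ) (hm : 2 ≤ m) (η : ℝ) (hη : 0 < η) :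
    ∃ γ₀ : ℝ, ∀ D : Data m, γ₀ ≤ D.γ → 1 - η ≤ D.A 0 ∧ D.A 0 < 1 := by
  have hM : (2 : ℝ) ≤ m := by exact_mod_cast hm
  have h1 : ∀ᶠ a in 𝓝 (0 : ℝ), m * a < η := by
    apply ContinuousAt.eventually_lt (by fun_prop) continuousAt_const; simpa using hη
  obtain ⟨ε, hε, h⟩ := Metric.eventually_nhds_iff.1 ((small m hM).and h1)
  refine ⟨max 1 (2 / ε ^ 2), fun D hD => ?_⟩
  have hγ1 : 1 ≤ D.γ := (le_max_left _ _).trans hD
  have hγ2 : 2 / ε ^ 2 ≤ D.γ := (le_max_right _ _).trans hD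
  have hκ := D.κpos
  have hκ1 : 1 ≤ D.κ := by
    by_contra hc
    push Not at hc
    have := pow_lt_one₀ hκ.le hc (show m ≠ 0 by omega)
    rw [D.hκ] at this
    linarith
  have hΓ : 0 < D.κ * D.γ := by positivity
  set a := 1 / Real.sqrt (D.κ * D.γ) with ha
  have ha0 : 0 < a := by positivity
  have ha2 : D.κ * D.γ * a ^ 2 = 1 := by
    rw [ha, div_pow, Real.sq_sqrt hΓ.le]; field_simp
  have haε : a < ε := by
    by_contra hc
    push Not at hc
    have b1 : ε ^ 2 ≤ a ^ 2 := by gcongr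
    rw [div_le_iff₀ (by positivity)] at hγ2
    have b2 : 1 * D.γ * ε ^ 2 ≤ D.κ * D.γ * a ^ 2 := by gcongr
    linarith
  obtain ⟨⟨c1, c2, c3, c4⟩, c5⟩ := h (y := a) (by simpa [abs_of_pos ha0] using haε)
  obtain ⟨r1, r2⟩ := D.two_sided a ha0 ha2 c1 c2 c3 c4
  exact ⟨by linarith, r2⟩

end Pool.Agent.P.MP_3a5611_an
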