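import Mathlib

/-!
Definitions for the radial `n`-Laplacian Moser-Trudinger problem on the unit ball of `ℝ^n`.
-/

open Filter Topology MeasureTheory Metric
open scoped ContDiff RealInnerProductSpace

namespace Pool.Agent.P.MP_3a5611_an

/-- Lebesgue measure on the open unit ball `B` of `ℝ^n`. -/
noncomputable def ballMeasure (n : ℕ) : Measure (EuclideanSpace ℝ (Fin n)) :=
  volume.restrict (ball 0 1)

/-- `φ ∈ C_c^∞(B)`. -/
def IsTest {n : ℕ} (φ : EuclideanSpace ℝ (Fin n) → ℝ) : Prop :=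
  ContDiff ℝ ∞ φ ∧ HasCompactSupport φ ∧ tsupport φ ⊆ ball 0 1

/-- `u ∈ W^{1,n}_0(B)` with weak gradient `Du`: the pair `(u, Du)` lies in `L^n(B)` and is the
`L^n(B)` limit of `(φ_j, ∇φ_j)` for test functions `φ_j ∈ C_c^∞(B)`. -/
def InSobolevZero (n : ℕ) (u : EuclideanSpace ℝ (Fin n) → ℝ)
    (Du : EuclideanSpace ℝ (Fin n) → EuclideanSpace ℝ (Fin n)) : Prop :=
  MemLp u n (ballMeasure n) ∧ MemLp Du n (ballMeasure n) ∧
    ∃ φ : ℕ → EuclideanSpace ℝ (Fin n) → ℝ, (∀ j, IsTest (φ j)) ∧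
      Tendsto (fun j => eLpNorm (fun x => φ j x - u x) n (ballMeasure n)) atTop (𝓝 0) ∧
      Tendsto (fun j => eLpNorm (fun x => gradient (φ j) x - Du x) n (ballMeasure n)) atTop (𝓝 0)

/-- `u` (with weak gradient `Du`) is a positive, radially symmetric weak solution in
`W^{1,n}_0(B)` of `Δ_n u + lam |u|^(n-2) u exp (u^(n/(n-1))) = 0`. -/
structure IsRadialSolution (n : ℕ) (lam : ℝ) (u : EuclideanSpace ℝ (Fin n) → ℝ)
    (Du : EuclideanSpace ℝ (Fin n) → EuclideanSpace ℝ (Fin n)) : Prop where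
  sobolev : InSobolevZero n u Du
  pos : ∀ᵐ x ∂(ballMeasure n), 0 < u x
  radial : ∃ v : ℝ → ℝ, ∀ᵐ x ∂(ballMeasure n), u x = v ‖x‖
  weak : ∀ φ, IsTest φ →
    ∫ x, ‖Du x‖ ^ (n - 2) * ⟪Du x, gradient φ x⟫ ∂(ballMeasure n) =
      lam * ∫ x, |u x| ^ (n - 2) * u x * Real.exp (u x ^ ((n : ℝ) / ((n : ℝ) - 1))) * φ x
        ∂(ballMeasure n)

/-- The `n`-Dirichlet energy `∫_B |Du|^n`. -/
noncomputable def energy (n : ℕ) (Du : EuclideanSpace ℝ (Fin n) → EuclideanSpace ℝ (Fin n)) : ℝ :=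
  ∫ x, ‖Du x‖ ^ n ∂(ballMeasure n)

/-- The `(n-1)`-dimensional measure `2 π^(n/2) / Γ(n/2)` of the unit sphere of `ℝ^n`. -/
noncomputable def sphereArea (n : ℕ) : ℝ :=
  2 * Real.pi ^ ((n : ℝ) / 2) / Real.Gamma ((n : ℝ) / 2)

/-- The essential suprema over `B` of the `u k` tend to `+∞`. -/
def BlowsUp (n : ℕ) (u : ℕ → EuclideanSpace ℝ (Fin n) → ℝ) : Prop :=
  Tendsto (fun k => essSup (fun x => (u k x : EReal)) (ballMeasure n)) atTop (𝓝 ⊤)

end Pool.Agent.P.MP_3a5611_an
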