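import Pool.Agent.P.MP_3a5611_an.Asymp

/-!
From the one-dimensional weak formulation on `(0, ∞)` to the classical bounded ODE solution.
-/

open Filter Topology Set MeasureTheory
open scoped ContDiff

set_option linter.dupNamespace false

namespace Pool.Agent.P.MP_3a5611_an

lemma fubini_tri {f g : ℝ → ℝ} (hf : IntegrableOn f (Ioi 0)) (hg : IntegrableOn g (Ioi 0)) :
    ∫ t in Ioi (0 : ℝ), f t * ∫ s in (0 : ℝ)..t, g s
      = ∫ s in Ioi (0 : ℝ), g s * ∫ t in Ioi s, f t := by
  have hS : MeasurableSet {p : ℝ × ℝ | p.2 ≤ p.1} := measurableSet_le measurable_snd measurable_fst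
  have hint : Integrable (Function.uncurry fun t s : ℝ => if s ≤ t then f t * g s else 0)
      ((volume.restrict (Ioi (0 : ℝ))).prod (volume.restrict (Ioi (0 : ℝ)))) := by
    have := (Integrable.mul_prod hf hg).indicator hS
    refine this.congr (ae_of_all _ fun p => ?_)
    simp [Function.uncurry, indicator]
  have h := integral_integral_swap hint
  have e1 : ∫ t in Ioi (0 : ℝ), f t * ∫ s in (0 : ℝ)..t, g s
      = ∫ t in Ioi (0 : ℝ), ∫ s in Ioi (0 : ℝ), if s ≤ t then f t * g s else 0 := by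
    refine setIntegral_congr_fun measurableSet_Ioi fun t ht => ?_
    have ht' : (0 : ℝ) ≤ t := le_of_lt ht
    rw [intervalIntegral.integral_of_le ht', ← integral_const_mul]
    have : (fun s => if s ≤ t then f t * g s else 0) = (Iic t).indicator fun s => f t * g s := by
      ext s; simp [indicator]
    rw [this, setIntegral_indicator measurableSet_Iic, Ioi_inter_Iic]
  have e2 : ∫ s in Ioi (0 : ℝ), g s * ∫ t in Ioi s, f t
      = ∫ s in Ioi (0 : ℝ), ∫ t in Ioi (0 : ℝ), if s ≤ t then f t * g s else 0 := by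
    refine setIntegral_congr_fun measurableSet_Ioi fun s hs => ?_
    have : (fun t => if s ≤ t then f t * g s else 0) = (Ici s).indicator fun t => f t * g s := by
      ext t; simp [indicator]
    have h2 : Ioi (0 : ℝ) ∩ Ici s = Ici s := inter_eq_right.2 fun x hx =>
      lt_of_lt_of_le (show (0 : ℝ) < s from hs) (show s ≤ x from hx)
    rw [this, setIntegral_indicator measurableSet_Ici, h2, integral_Ici_eq_integral_Ioi,
      integral_mul_const, mul_comm]
  rw [e1, e2, h]

lemma hasDerivAt_tail {f : ℝ → ℝ} (hf : IntegrableOn f (Ioi 0)) (hc : ContinuousOn f (Ioi 0))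
    {t : ℝ} (ht : 0 < t) : HasDerivAt (fun s => ∫ x in Ioi s, f x) (-f t) t := by
  have hi : IntervalIntegrable f volume 0 t :=
    (intervalIntegrable_iff_integrableOn_Ioc_of_le ht.le).2 (hf.mono_set Ioc_subset_Ioi_self)
  have h1 := intervalIntegral.integral_hasDerivAt_right hi
    (hc.stronglyMeasurableAtFilter isOpen_Ioi t ht) (hc.continuousAt (Ioi_mem_nhds ht))
  have h2 := h1.const_sub (∫ x in Ioi (0 : ℝ), f x)
  refine h2.congr_of_eventuallyEq ?_
  filter_upwards [lt_mem_nhds ht] with s hs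
  have := intervalIntegral.integral_Ioi_sub_Ioi hf hs.le
  linarith

lemma young_aux {m : ℕ} {x θ : ℝ} (hθ : 0 < θ) : x ≤ θ + |x| ^ (m + 1) / θ ^ m := by
  rcases le_total |x| θ with h | h
  · have : 0 ≤ |x| ^ (m + 1) / θ ^ m := by positivity
    linarith [le_abs_self x]
  · have : |x| ≤ |x| ^ (m + 1) / θ ^ m := by
      rw [le_div_iff₀ (by positivity), pow_succ']
      gcongr
    linarith [le_abs_self x]

lemma linear_growth {m : ℕ} {z0 : ℝ → ℝ} (hI : ∀ a b, IntervalIntegrable z0 volume a b)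
    (hn : IntegrableOn (fun t => |z0 t| ^ (m + 1)) (Ioi 0)) {ε : ℝ} (hε : 0 < ε) :
    ∃ Y, 0 ≤ Y ∧ ∀ t, 0 ≤ t → ∀ θ, 0 < θ → ∫ s in (0 : ℝ)..t, z0 s ≤ Y + θ * t + ε / θ ^ m := by
  have hl : Tendsto (fun a : ℝ => ∫ x in Ioi a, |z0 x| ^ (m + 1)) atTop (𝓝 0) :=
    tendsto_integral_Ioi_zero tendsto_id
  obtain ⟨a, ha, ha0⟩ := ((hl.eventually (gt_mem_nhds hε)).and (eventually_ge_atTop 0)).exists
  refine ⟨∫ s in (0 : ℝ)..a, |z0 s|, intervalIntegral.integral_nonneg ha0 fun _ _ => abs_nonneg _,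
    fun t ht θ hθ => ?_⟩
  have hp : 0 ≤ θ * t + ε / θ ^ m := by positivity
  rcases le_total t a with h | h
  · have h1 : ∫ s in (0 : ℝ)..t, z0 s ≤ ∫ s in (0 : ℝ)..t, |z0 s| :=
      intervalIntegral.integral_mono_on ht (hI _ _) (hI _ _).abs fun x _ => le_abs_self _
    have h2 : ∫ s in (0 : ℝ)..t, |z0 s| ≤ ∫ s in (0 : ℝ)..a, |z0 s| :=
      intervalIntegral.integral_mono_interval le_rfl ht h (ae_of_all _ fun _ => abs_nonneg _)
        (hI _ _).abs
    linarith
  · have h0 := intervalIntegral.integral_add_adjacent_intervals (hI 0 a) (hI a t)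
    have h1 : ∫ s in (0 : ℝ)..a, z0 s ≤ ∫ s in (0 : ℝ)..a, |z0 s| :=
      intervalIntegral.integral_mono_on ha0 (hI _ _) (hI _ _).abs fun x _ => le_abs_self _
    have hna : IntegrableOn (fun t => |z0 t| ^ (m + 1)) (Ioi a) := hn.mono_set (Ioi_subset_Ioi ha0)
    have hni : IntervalIntegrable (fun t => |z0 t| ^ (m + 1)) volume a t :=
      (intervalIntegrable_iff_integrableOn_Ioc_of_le h).2 (hna.mono_set Ioc_subset_Ioi_self)
    have h2 : ∫ s in a..t, z0 s ≤ ∫ s in a..t, (θ + |z0 s| ^ (m + 1) / θ ^ m) :=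
      intervalIntegral.integral_mono_on h (hI _ _)
        (intervalIntegrable_const.add (hni.div_const _)) fun x _ => young_aux hθ
    rw [intervalIntegral.integral_add intervalIntegrable_const (hni.div_const _),
      intervalIntegral.integral_div, intervalIntegral.integral_const, smul_eq_mul] at h2
    have h3 : ∫ s in a..t, |z0 s| ^ (m + 1) ≤ ε := by
      have := intervalIntegral.integral_Ioi_sub_Ioi hna h
      have h4 : 0 ≤ ∫ x in Ioi t, |z0 x| ^ (m + 1) := integral_nonneg fun _ => by positivity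
      linarith
    have h4 : (∫ s in a..t, |z0 s| ^ (m + 1)) / θ ^ m ≤ ε / θ ^ m := by gcongr
    have h5 : 0 ≤ θ * a := by positivity
    linarith

lemma growth_pt {m : ℕ} (hm : 1 ≤ m) {Y t y κ : ℝ} (hY : 0 ≤ Y) (ht : 0 ≤ t) (hκ : 0 < κ)
    (hy : κ ^ m = y) (h : ∀ θ, 0 < θ → y ≤ Y + θ * t + (1 / (4 * 8 ^ m)) / θ ^ m) :
    y ^ m * Real.exp (y * κ - t)
      ≤ m.factorial * Real.exp (1 + 2 * (4 * Y * (1 + 4 * Y))) * Real.exp (-(1 / 2) * t) := by
  have hy0 : 0 < y := hy ▸ pow_pos hκ m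
  have hκy : κ ≤ 1 + y := by
    rcases le_total κ 1 with h1 | h1
    · linarith
    · have : κ ≤ κ ^ m := le_self_pow₀ h1 (by omega)
      linarith
  have hyκ : y ≤ 1 + y * κ := by
    rcases le_total κ 1 with h1 | h1
    · have : κ ^ m ≤ 1 := pow_le_one₀ hκ.le h1
      have : 0 ≤ y * κ := by positivity
      linarith
    · nlinarith
  have h1 := h (1 / (8 * κ)) (by positivity)
  have e1 : (1 / (4 * 8 ^ m)) / (1 / (8 * κ)) ^ m = y / 4 := by
    rw [← hy, div_pow, mul_pow, one_pow]; field_simp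
  rw [e1] at h1
  have h2 : y * κ ≤ Y * κ + t / 8 + y * κ / 4 := by
    have := mul_le_mul_of_nonneg_right h1 hκ.le
    have e2 : (Y + 1 / (8 * κ) * t + y / 4) * κ = Y * κ + t / 8 + y * κ / 4 := by field_simp
    linarith
  have h3 : y * κ ≤ t / 4 + 4 * Y * (1 + 4 * Y) := by
    rcases le_total (4 * Y) y with h4 | h4
    · have : 0 ≤ 4 * Y * (1 + 4 * Y) := by positivity
      nlinarith
    · have : y * κ ≤ 4 * Y * (1 + 4 * Y) := by
        apply mul_le_mul h4 (by linarith) hκ.le (by positivity)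
      linarith
  have h4 : y ^ m ≤ m.factorial * Real.exp (1 + y * κ) := by
    have a1 : y ^ m ≤ (1 + y * κ) ^ m := pow_le_pow_left₀ hy0.le hyκ m
    have a2 := Real.pow_div_factorial_le_exp (1 + y * κ) (by positivity) m
    rw [div_le_iff₀ (by exact_mod_cast m.factorial_pos)] at a2
    linarith
  calc y ^ m * Real.exp (y * κ - t) ≤ (m.factorial * Real.exp (1 + y * κ)) * Real.exp (y * κ - t) := by
        gcongr
    _ = m.factorial * Real.exp ((1 + y * κ) + (y * κ - t)) := by
        rw [Real.exp_add (1 + y * κ)]; ring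
    _ ≤ m.factorial * Real.exp ((1 + 2 * (4 * Y * (1 + 4 * Y))) + (-(1 / 2) * t)) := by
        exact mul_le_mul_of_nonneg_left (Real.exp_le_exp.2 (by linarith)) (by positivity)
    _ = _ := by rw [Real.exp_add (1 + 2 * (4 * Y * (1 + 4 * Y)))]; ring

/-- The nonlinearity `|s|^(n-2) s exp (s^(n/(n-1)))` with `n = m + 1`. -/
noncomputable def gfun (m : ℕ) (s : ℝ) : ℝ :=
  |s| ^ (m - 1) * s * Real.exp (s ^ (((m : ℝ) + 1) / m))

lemma gfun_pos {m : ℕ} (hm : 1 ≤ m) {s : ℝ} (hs : 0 < s) :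
    gfun m s = s ^ m * Real.exp (s * s ^ ((1 : ℝ) / m)) := by
  have hM : (0 : ℝ) < m := by exact_mod_cast hm
  unfold gfun
  rw [abs_of_pos hs, ← pow_succ, Nat.sub_add_cancel hm]
  congr 2
  rw [show ((m : ℝ) + 1) / m = 1 + 1 / m by field_simp, Real.rpow_add hs, Real.rpow_one]

lemma measurable_gfun (m : ℕ) : Measurable (gfun m) := by
  unfold gfun; fun_prop

lemma rpow_inv_pow {m : ℕ} (hm : 1 ≤ m) {s : ℝ} (hs : 0 ≤ s) : (s ^ ((1 : ℝ) / m)) ^ m = s := by
  rw [one_div]; exact Real.rpow_inv_natCast_pow hs (by omega)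

lemma growth {m : ℕ} (hm : 1 ≤ m) {z0 : ℝ → ℝ} (hI : ∀ a b, IntervalIntegrable z0 volume a b)
    (hn : IntegrableOn (fun t => |z0 t| ^ (m + 1)) (Ioi 0)) :
    ∃ K, 0 ≤ K ∧ ∀ t, 0 ≤ t → 0 < ∫ s in (0 : ℝ)..t, z0 s →
      gfun m (∫ s in (0 : ℝ)..t, z0 s) * Real.exp (-t) ≤ K * Real.exp (-(1 / 2) * t) := by
  obtain ⟨Y, hY, h⟩ := linear_growth hI hn (ε := 1 / (4 * 8 ^ m)) (by positivity)
  refine ⟨m.factorial * Real.exp (1 + 2 * (4 * Y * (1 + 4 * Y))), by positivity, fun t ht hy => ?_⟩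
  rw [gfun_pos hm hy, mul_assoc, ← Real.exp_add, ← sub_eq_add_neg]
  exact growth_pt hm hY ht (Real.rpow_pos_of_pos hy _) (rpow_inv_pow hm hy.le) (h t ht)

/-- A test function on `(0, ∞)`. -/
def Test1 (χ : ℝ → ℝ) : Prop := ContDiff ℝ ∞ χ ∧ HasCompactSupport χ ∧ tsupport χ ⊆ Ioi 0

lemma ae_eq_zero_Ioi {f : ℝ → ℝ} (hf : ∀ b, IntegrableOn f (Ioc 0 b))
    (h : ∀ χ, Test1 χ → ∫ t in Ioi (0 : ℝ), χ t * f t = 0) :
    ∀ᵐ t ∂(volume.restrict (Ioi (0 : ℝ))), f t = 0 := by
  rw [ae_restrict_iff' measurableSet_Ioi]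
  apply isOpen_Ioi.ae_eq_zero_of_integral_contDiff_smul_eq_zero
  · intro x hx
    refine ⟨Ioc 0 (x + 1), ?_, hf _⟩
    exact mem_nhdsWithin_of_mem_nhds (Ioc_mem_nhds hx (by linarith))
  · intro χ h1 h2 h3
    rw [← h χ ⟨h1, h2, h3⟩]
    symm
    apply setIntegral_eq_integral_of_forall_compl_eq_zero
    intro x hx
    have : χ x = 0 := image_eq_zero_of_notMem_tsupport fun h => hx (h3 h)
    simp [this]

theorem exists_data {m : ℕ} (hm : 2 ≤ m) {z0 : ℝ → ℝ}
    (hI : ∀ a b, IntervalIntegrable z0 volume a b)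
    (hn : IntegrableOn (fun t => |z0 t| ^ (m + 1)) (Ioi 0))
    (hpos : ∀ᵐ t ∂(volume.restrict (Ioi (0 : ℝ))), 0 < ∫ s in (0 : ℝ)..t, z0 s)
    {Λ : ℝ} (hΛ : 0 < Λ)
    (hweak : ∀ χ, Test1 χ → ∫ t in Ioi (0 : ℝ), χ t * (|z0 t| ^ (m - 1) * z0 t)
      = Λ * ∫ t in Ioi (0 : ℝ), (gfun m (∫ s in (0 : ℝ)..t, z0 s) * Real.exp (-t))
          * ∫ s in (0 : ℝ)..t, χ s) :
    ∃ D : Data m, D.A 0 = ∫ t in Ioi (0 : ℝ), |z0 t| ^ (m + 1) ∧
      ∀ t, 0 < t → ∫ s in (0 : ℝ)..t, z0 s ≤ D.γ := by
  have hm1 : 1 ≤ m := by omega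
  have hm0 : m ≠ 0 := by omega
  have hM : (0 : ℝ) < m := by positivity
  set y : ℝ → ℝ := fun t => ∫ s in (0 : ℝ)..t, z0 s with hy
  have ycont : Continuous y := intervalIntegral.continuous_primitive hI 0
  set k : ℝ → ℝ := fun t => gfun m (y t) * Real.exp (-t) with hk
  have kmeas : Measurable k := ((measurable_gfun m).comp ycont.measurable).mul (by fun_prop)
  obtain ⟨K, hK0, hK⟩ := growth hm1 hI hn
  have kpos : ∀ t, 0 < y t → 0 < k t := fun t ht => by
    simp only [hk]; rw [gfun_pos hm1 ht]; positivity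
  have kint : IntegrableOn k (Ioi 0) := by
    refine Integrable.mono' ((integrableOn_exp_mul_Ioi (a := -(1 / 2)) (by norm_num) 0).const_mul K)
      kmeas.aestronglyMeasurable ?_
    filter_upwards [hpos, ae_restrict_mem measurableSet_Ioi] with t ht ht0
    rw [Real.norm_eq_abs, abs_of_pos (kpos t ht)]
    exact hK t (le_of_lt ht0) ht
  set W : ℝ → ℝ := fun t => Λ * ∫ s in Ioi t, k s with hW
  have Wcont : ContinuousOn W (Ici 0) := continuousOn_const.mul kint.continuousOn_Ici_primitive_Ioi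
  have Wpos : ∀ t, 0 ≤ t → 0 < W t := fun t ht => by
    refine mul_pos hΛ ?_
    have h1 : ∀ᵐ s ∂(volume.restrict (Ioi t)), 0 < k s :=
      (ae_restrict_of_ae_restrict_of_subset (Ioi_subset_Ioi ht) hpos).mono fun s hs => kpos s hs
    rw [integral_pos_iff_support_of_nonneg_ae (h1.mono fun s hs => hs.le)
      (kint.mono_set (Ioi_subset_Ioi ht))]
    have h2 : (volume.restrict (Ioi t)) (Function.support k) = (volume.restrict (Ioi t)) univ := by
      apply measure_congr
      filter_upwards [h1] with s hs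
      simp only [eq_iff_iff]
      exact ⟨fun _ => trivial, fun _ => hs.ne'⟩
    rw [h2]; simp
  have z0meas : ∀ b, AEStronglyMeasurable z0 (volume.restrict (Ioc 0 b)) := fun b =>
    (hI 0 b).1.aestronglyMeasurable
  have hloc : ∀ b, IntegrableOn (fun t => |z0 t| ^ (m - 1) * z0 t) (Ioc 0 b) := fun b => by
    have h1 : IntegrableOn (fun t => 1 + |z0 t| ^ (m + 1)) (Ioc 0 b) :=
      (integrableOn_const (by simp)).add (hn.mono_set Ioc_subset_Ioi_self)
    refine Integrable.mono' h1 ?_ (ae_of_all _ fun t => ?_)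
    · exact ((continuous_abs.comp_aestronglyMeasurable (z0meas b)).pow _).mul (z0meas b)
    · rw [Real.norm_eq_abs, abs_mul, abs_pow, abs_abs, ← pow_succ, Nat.sub_add_cancel hm1]
      rcases le_total |z0 t| 1 with h | h
      · have := pow_le_one₀ (n := m) (abs_nonneg _) h
        have : 0 ≤ |z0 t| ^ (m + 1) := by positivity
        linarith
      · have := pow_le_pow_right₀ h (Nat.le_add_right m 1)
        linarith
  have hWloc : ∀ b, IntegrableOn W (Ioc 0 b) := fun b =>
    ((Wcont.mono Icc_subset_Ici_self).integrableOn_Icc (a := 0) (b := b)).mono_set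
      Ioc_subset_Icc_self
  have hae : ∀ᵐ t ∂(volume.restrict (Ioi (0 : ℝ))), |z0 t| ^ (m - 1) * z0 t - W t = 0 := by
    apply ae_eq_zero_Ioi (fun b => (hloc b).sub (hWloc b))
    intro χ hχ
    have hχi : Integrable χ := hχ.1.continuous.integrable_of_hasCompactSupport hχ.2.1
    obtain ⟨b, hb⟩ := hχ.2.1.isCompact.bddAbove
    have hsupp : ∀ {f : ℝ → ℝ}, IntegrableOn f (Ioc 0 b) →
        IntegrableOn (fun t => χ t * f t) (Ioi 0) := fun {f} hf => by
      obtain ⟨C, hC⟩ := hχ.1.continuous.bounded_above_of_compact_support hχ.2.1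
      have h1 : IntegrableOn (fun t => χ t * f t) (Ioc 0 b) :=
        Integrable.bdd_mul hf hχ.1.continuous.aestronglyMeasurable (ae_of_all _ hC)
      refine h1.of_forall_sdiff_eq_zero measurableSet_Ioi fun t ht => ?_
      have : χ t = 0 := image_eq_zero_of_notMem_tsupport fun h => ht.2 ⟨ht.1, hb h⟩
      simp [this]
    have e1 := fubini_tri kint hχi.integrableOn
    simp only [Pi.sub_apply, mul_sub]
    rw [integral_sub (hsupp (hloc b)) (hsupp (hWloc b)), hweak χ hχ, e1, ← integral_const_mul,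
      sub_eq_zero]
    congr 1; ext t; simp only [hW]; ring
  set z : ℝ → ℝ := fun t => W t ^ ((1 : ℝ) / m) with hz
  have zpos : ∀ t, 0 ≤ t → 0 < z t := fun t ht => Real.rpow_pos_of_pos (Wpos t ht) _
  have zW : ∀ t, 0 ≤ t → z t ^ m = W t := fun t ht => rpow_inv_pow hm1 (Wpos t ht).le
  have zcont : ContinuousOn z (Ici 0) := Wcont.rpow_const fun t ht => Or.inl (Wpos t ht).ne'
  have hz0 : ∀ᵐ t ∂(volume.restrict (Ioi (0 : ℝ))), z0 t = z t := by
    filter_upwards [hae, ae_restrict_mem measurableSet_Ioi] with t ht ht0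
    have ht0' : (0 : ℝ) ≤ t := le_of_lt ht0
    have h1 : |z0 t| ^ (m - 1) * z0 t = W t := by linarith
    have h2 : 0 < z0 t := by
      by_contra hc
      push Not at hc
      have : |z0 t| ^ (m - 1) * z0 t ≤ 0 := mul_nonpos_of_nonneg_of_nonpos (by positivity) hc
      linarith [Wpos t ht0']
    rw [abs_of_pos h2, ← pow_succ, Nat.sub_add_cancel hm1, ← zW t ht0'] at h1
    exact (pow_left_inj₀ h2.le (zpos t ht0').le hm0).1 h1
  have hyz : ∀ t, 0 ≤ t → y t = ∫ s in (0 : ℝ)..t, z s := fun t ht => by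
    simp only [hy]
    rw [intervalIntegral.integral_of_le ht, intervalIntegral.integral_of_le ht]
    exact integral_congr_ae (ae_restrict_of_ae_restrict_of_subset Ioc_subset_Ioi_self hz0)
  have zint : ∀ t, 0 ≤ t → IntervalIntegrable z volume 0 t := fun t ht =>
    (zcont.mono (by rw [uIcc_of_le ht]; exact Icc_subset_Ici_self)).intervalIntegrable
  have zcont' : ContinuousOn z (Ioi 0) := zcont.mono Ioi_subset_Ici_self
  have dy : ∀ t, 0 < t → HasDerivAt y (z t) t := fun t ht => by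
    refine (intervalIntegral.integral_hasDerivAt_right (zint t ht.le)
      (zcont'.stronglyMeasurableAtFilter isOpen_Ioi t ht)
      (zcont'.continuousAt (Ioi_mem_nhds ht))).congr_of_eventuallyEq ?_
    filter_upwards [lt_mem_nhds ht] with s hs using hyz s hs.le
  have ypos : ∀ t, 0 < t → 0 < y t := fun t ht => by
    rw [hyz t ht.le]
    exact intervalIntegral.intervalIntegral_pos_of_pos_on (zint t ht.le)
      (fun x hx => zpos x hx.1.le) ht
  set q : ℝ → ℝ := fun t => y t ^ ((1 : ℝ) / m) with hq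
  have qpos : ∀ t, 0 < t → 0 < q t := fun t ht => Real.rpow_pos_of_pos (ypos t ht) _
  have hkP : ∀ t, 0 < t → Λ * k t = y t ^ m * Real.exp (y t * q t - t + Real.log Λ) :=
    fun t ht => by
      simp only [hk, hq]
      rw [gfun_pos hm1 (ypos t ht), Real.exp_add, Real.exp_log hΛ, sub_eq_add_neg, Real.exp_add]
      ring
  have kcont : ContinuousOn k (Ioi 0) := by
    have : ContinuousOn (fun t => y t ^ m * Real.exp (y t * y t ^ ((1 : ℝ) / m)) * Real.exp (-t))
        (Ioi 0) := by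
      refine ContinuousOn.mul (ContinuousOn.mul (ycont.pow m).continuousOn ?_) (by fun_prop)
      exact (ycont.continuousOn.mul
        (ycont.continuousOn.rpow_const fun t ht => Or.inl (ypos t ht).ne')).rexp
    refine this.congr fun t ht => ?_
    simp only [hk]
    rw [gfun_pos hm1 (ypos t ht)]
  have dW : ∀ t, 0 < t → HasDerivAt W (-(Λ * k t)) t := fun t ht =>
    ((hasDerivAt_tail kint kcont ht).const_mul Λ).congr_deriv (by ring)
  have lW : Tendsto W atTop (𝓝 0) := by
    have := (tendsto_integral_Ioi_zero (f := k) (μ := volume) tendsto_id).const_mul Λ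
    rw [mul_zero] at this
    exact this
  have lz : Tendsto z atTop (𝓝 0) := by
    have := lW.rpow_const (p := (1 : ℝ) / m) (Or.inr (by positivity))
    rw [Real.zero_rpow (by positivity)] at this
    exact this
  -- the energy tail
  have zn : IntegrableOn (fun t => z t * W t) (Ioi 0) := by
    refine hn.congr ?_
    filter_upwards [hz0, ae_restrict_mem measurableSet_Ioi] with t ht ht0
    have ht0' : (0 : ℝ) ≤ t := le_of_lt ht0
    rw [ht, abs_of_pos (zpos t ht0'), pow_succ', zW t ht0']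
  have zWcont : ContinuousOn (fun t => z t * W t) (Ioi 0) :=
    zcont'.mul (Wcont.mono Ioi_subset_Ici_self)
  -- boundedness
  have Wle : ∀ t, 0 < t → W t ≤ (1 + 2 * Λ * K) ^ m * Real.exp (-(1 / 2) * t) := fun t ht => by
    have h1 : ∫ s in Ioi t, k s ≤ ∫ s in Ioi t, K * Real.exp (-(1 / 2) * s) :=
      setIntegral_mono_on (kint.mono_set (Ioi_subset_Ioi ht.le))
        ((integrableOn_exp_mul_Ioi (a := -(1 / 2)) (by norm_num) t).const_mul K) measurableSet_Ioi
        fun s hs => hK s (ht.le.trans (le_of_lt hs)) (ypos s (ht.trans hs))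
    rw [integral_const_mul, integral_exp_mul_Ioi (by norm_num)] at h1
    have h2 : 1 + 2 * Λ * K ≤ (1 + 2 * Λ * K) ^ m :=
      le_self_pow₀ (by have : 0 ≤ 2 * Λ * K := by positivity
                       linarith) hm0
    have h3 := Real.exp_pos (-(1 / 2) * t)
    calc W t ≤ Λ * (K * (-Real.exp (-(1 / 2) * t) / -(1 / 2))) := by simp only [hW]; gcongr
      _ = (2 * Λ * K) * Real.exp (-(1 / 2) * t) := by ring
      _ ≤ _ := by gcongr; linarith
  set K' := 1 + 2 * Λ * K with hK'
  have hK'0 : 0 < K' := by positivity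
  have zle : ∀ t, 0 < t → z t ≤ K' * Real.exp (-(1 / (2 * m)) * t) := fun t ht => by
    rw [← pow_le_pow_iff_left₀ (zpos t ht.le).le (by positivity) hm0, zW t ht.le, mul_pow,
      ← Real.exp_nat_mul]
    refine (Wle t ht).trans (le_of_eq ?_)
    congr 2; field_simp
  have ybdd : ∀ t, 0 ≤ t → y t ≤ K' * (2 * m) := fun t ht => by
    have h1 := le_of_deriv_nonneg'
      (F := fun s => -(y s) - K' * (2 * m) * Real.exp (-(1 / (2 * m)) * s))
      (F' := fun s => -(z s) + K' * Real.exp (-(1 / (2 * m)) * s)) ht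
      (by fun_prop)
      (fun s hs _ => by
        refine HasDerivAt.congr_deriv ((dy s hs).neg.sub
          ((((hasDerivAt_id s).const_mul (-(1 / (2 * (m : ℝ))))).exp).const_mul (K' * (2 * m)))) ?_
        simp only [id]
        field_simp
        ring)
      (fun s hs _ => by linarith [zle s hs])
    have h2 : y 0 = 0 := by simp [hy]
    have h3 : 0 ≤ K' * (2 * m) * Real.exp (-(1 / (2 * m)) * t) := by positivity
    simp only [h2, mul_zero, Real.exp_zero, mul_one] at h1
    linarith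
  have ymono : Monotone fun t => y (max t 0) := fun s t hst =>
    le_of_deriv_nonneg' (max_le_max_right 0 hst) ycont.continuousOn
      (fun r hr _ => dy r ((le_max_right _ _).trans_lt hr))
      (fun r hr _ => (zpos r ((le_max_right _ _).trans hr.le)).le)
  have ly : Tendsto y atTop (𝓝 (⨆ t, y (max t 0))) := by
    refine (tendsto_atTop_ciSup ymono ⟨K' * (2 * m), ?_⟩).congr' ?_
    · rintro _ ⟨t, rfl⟩; exact ybdd _ (le_max_right _ _)
    · filter_upwards [eventually_ge_atTop 0] with t ht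
      rw [max_eq_left ht]
  set γ := ⨆ t, y (max t 0) with hγ
  have γ0 : 0 ≤ γ := ge_of_tendsto ly (by
    filter_upwards [eventually_gt_atTop 0] with t ht using (ypos t ht).le)
  let D : Data m :=
    { y := y, z := z, w := W, q := q, P := fun t => Λ * k t
      A := fun t => ∫ s in Ioi t, z s * W s
      L := Real.log Λ, γ := γ, κ := γ ^ ((1 : ℝ) / m), hm := hm
      ypos := ypos, zpos := fun t ht => zpos t ht.le, qpos := qpos
      hqy := fun t ht => rpow_inv_pow hm1 (ypos t ht).le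
      hzw := fun t ht => zW t ht.le
      hP := hkP, dy := dy, dw := dW
      dz := fun t ht => by
        refine ((dW t ht).rpow_const (p := (1 : ℝ) / m) (Or.inl (Wpos t ht.le).ne')).congr_deriv ?_
        rw [Real.rpow_sub_one (Wpos t ht.le).ne']
        have := Wpos t ht.le
        simp only [hz]
        field_simp
      dq := fun t ht => by
        refine ((dy t ht).rpow_const (p := (1 : ℝ) / m) (Or.inl (ypos t ht).ne')).congr_deriv ?_
        rw [Real.rpow_sub_one (ypos t ht).ne']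
        have := ypos t ht
        simp only [hq]
        field_simp
      dA := fun t ht => hasDerivAt_tail zn zWcont ht
      y0 := by simp [hy]
      cy := ycont.continuousWithinAt
      cw := Wcont 0 (mem_Ici.2 le_rfl)
      cA := zn.continuousWithinAt_Ici_primitive_Ioi
      ly := ly
      lq := ly.rpow_const (Or.inr (by positivity))
      lw := lW, lz := lz
      lA := tendsto_integral_Ioi_zero tendsto_id
      hκ := rpow_inv_pow hm1 γ0 }
  refine ⟨D, ?_, fun t ht => D.y_le t ht⟩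
  apply integral_congr_ae
  filter_upwards [hz0, ae_restrict_mem measurableSet_Ioi] with t ht ht0
  have ht0' : (0 : ℝ) ≤ t := le_of_lt ht0
  rw [ht, abs_of_pos (zpos t ht0'), pow_succ', zW t ht0']

end Pool.Agent.P.MP_3a5611_an
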