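import Pool.Agent.P.MP_3a5611_an.Radial
import Pool.Agent.P.MP_3a5611_an.OneD

/-!
Integration by parts for `W^{1,n}_0` functions and the structure of radial ones.
-/

open Filter Topology MeasureTheory Metric Set
open scoped ContDiff RealInnerProductSpace ENNReal

set_option linter.dupNamespace false

namespace Pool.Agent.P.MP_3a5611_an

variable {n : ℕ}

lemma exists_bound_ball {F : Type*} [NormedAddCommGroup F] {f : Euc n → F} (hf : Continuous f) :
    ∃ C, 0 ≤ C ∧ ∀ᵐ x ∂(ballMeasure n), ‖f x‖ ≤ C := by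
  obtain ⟨C, hC⟩ := (isCompact_closedBall (0 : Euc n) 1).exists_bound_of_continuousOn
    hf.continuousOn
  refine ⟨max C 0, le_max_right _ _, ?_⟩
  filter_upwards [ae_norm_lt n] with x hx
  exact (hC x (mem_closedBall_zero_iff.2 hx.le)).trans (le_max_left _ _)

lemma memLp_of_continuous {F : Type*} [NormedAddCommGroup F] [SecondCountableTopology F]
    {f : Euc n → F} (hf : Continuous f) (p : ℝ≥0∞) : MemLp f p (ballMeasure n) := by
  obtain ⟨C, -, hC⟩ := exists_bound_ball hf
  exact MemLp.of_bound hf.aestronglyMeasurable C hC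

lemma integrable_of_continuous {f : Euc n → ℝ} (hf : Continuous f) :
    Integrable f (ballMeasure n) :=
  memLp_one_iff_integrable.1 (memLp_of_continuous hf 1)

lemma integrable_mul_continuous {f g : Euc n → ℝ} (hf : Integrable f (ballMeasure n))
    (hg : Continuous g) : Integrable (fun x => f x * g x) (ballMeasure n) := by
  obtain ⟨C, -, hC⟩ := exists_bound_ball hg
  exact hf.mul_bdd hg.aestronglyMeasurable hC

lemma integrable_inner {D : Euc n → Euc n} (hD : Integrable D (ballMeasure n))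
    {g : Euc n → Euc n} (hg : Continuous g) :
    Integrable (fun x => ⟪D x, g x⟫) (ballMeasure n) := by
  obtain ⟨C, -, hC⟩ := exists_bound_ball hg
  refine Integrable.mono' (hD.norm.mul_const C)
    (hD.aestronglyMeasurable.inner hg.aestronglyMeasurable) ?_
  filter_upwards [hC] with x hx
  exact (norm_inner_le_norm _ _).trans (by gcongr)

lemma tendsto_L1 {F : Type*} [NormedAddCommGroup F] (hn : 0 < n) {g : ℕ → Euc n → F}
    (hg : ∀ j, MemLp (g j) n (ballMeasure n))
    (h : Tendsto (fun j => eLpNorm (g j) n (ballMeasure n)) atTop (𝓝 0)) :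
    Tendsto (fun j => ∫ x, ‖g j x‖ ∂(ballMeasure n)) atTop (𝓝 0) := by
  have h1n : (1 : ℝ≥0∞) ≤ n := by exact_mod_cast hn
  have hexp : 0 ≤ 1 / (1 : ℝ≥0∞).toReal - 1 / (n : ℝ≥0∞).toReal := by
    simp only [ENNReal.toReal_one, div_one, ENNReal.toReal_natCast, sub_nonneg]
    rw [div_le_one (by positivity)]
    exact_mod_cast hn
  set c := ballMeasure n univ ^ (1 / (1 : ℝ≥0∞).toReal - 1 / (n : ℝ≥0∞).toReal) with hc
  have hc' : c ≠ ⊤ := ENNReal.rpow_ne_top_of_nonneg hexp (measure_ne_top _ _)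
  have h2 : Tendsto (fun j => eLpNorm (g j) n (ballMeasure n) * c) atTop (𝓝 0) := by
    have := ENNReal.Tendsto.mul_const h (b := c) (Or.inr hc')
    rwa [zero_mul] at this
  have h3 : Tendsto (fun j => eLpNorm (g j) 1 (ballMeasure n)) atTop (𝓝 0) :=
    tendsto_of_tendsto_of_tendsto_of_le_of_le tendsto_const_nhds h2 (fun _ => zero_le)
      fun j => eLpNorm_le_eLpNorm_mul_rpow_measure_univ h1n (hg j).aestronglyMeasurable
  have h4 := (ENNReal.tendsto_toReal ENNReal.zero_ne_top).comp h3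
  simp only [ENNReal.toReal_zero] at h4
  refine h4.congr fun j => ?_
  rw [Function.comp_apply, eLpNorm_one_eq_lintegral_enorm,
    integral_norm_eq_lintegral_enorm (hg j).aestronglyMeasurable]

lemma continuous_fderiv_apply {ψ : Euc n → ℝ} (hψ : ContDiff ℝ 1 ψ) (e : Euc n) :
    Continuous fun x => fderiv ℝ ψ x e :=
  (hψ.continuous_fderiv one_ne_zero).clm_apply continuous_const

lemma IsTest.c1 {φ : Euc n → ℝ} (hφ : IsTest φ) : ContDiff ℝ 1 φ := hφ.1.of_le (by simp)

lemma continuous_gradient {ψ : Euc n → ℝ} (hψ : ContDiff ℝ 1 ψ) : Continuous (gradient ψ) :=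
  (InnerProductSpace.toDual ℝ (Euc n)).symm.continuous.comp (hψ.continuous_fderiv one_ne_zero)

lemma ibp_test {φ ψ : Euc n → ℝ} (hφ : IsTest φ) (hψ : ContDiff ℝ 1 ψ) (e : Euc n) :
    ∫ x, φ x * fderiv ℝ ψ x e ∂(ballMeasure n) = -∫ x, fderiv ℝ φ x e * ψ x ∂(ballMeasure n) := by
  have c1 := hφ.1.continuous
  have c2 := hψ.continuous
  have c3 := continuous_fderiv_apply hφ.c1 e
  have c4 := continuous_fderiv_apply hψ e
  have s3 : HasCompactSupport fun x => fderiv ℝ φ x e := hφ.2.1.fderiv_apply ℝ e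
  have h := integral_mul_fderiv_eq_neg_fderiv_mul_of_integrable (μ := volume) (f := φ) (g := ψ)
    (v := e) ((c3.mul c2).integrable_of_hasCompactSupport s3.mul_right)
    ((c1.mul c4).integrable_of_hasCompactSupport hφ.2.1.mul_right)
    ((c1.mul c2).integrable_of_hasCompactSupport hφ.2.1.mul_right)
    (fun x _ => hφ.c1.differentiable one_ne_zero x) (fun x _ => hψ.differentiable one_ne_zero x)
  unfold ballMeasure
  rw [setIntegral_eq_integral_of_forall_compl_eq_zero, setIntegral_eq_integral_of_forall_compl_eq_zero,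
    h]
  · intro x hx
    have : x ∉ tsupport (fderiv ℝ φ) := fun h => hx (hφ.2.2 (tsupport_fderiv_subset ℝ h))
    simp [image_eq_zero_of_notMem_tsupport this]
  · intro x hx
    have : x ∉ tsupport φ := fun h => hx (hφ.2.2 h)
    simp [image_eq_zero_of_notMem_tsupport this]

lemma InSobolevZero.integrable (hn : 0 < n) {u : Euc n → ℝ} {Du : Euc n → Euc n}
    (h : InSobolevZero n u Du) :
    Integrable u (ballMeasure n) ∧ Integrable Du (ballMeasure n) :=
  ⟨h.1.integrable (by exact_mod_cast hn), h.2.1.integrable (by exact_mod_cast hn)⟩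

lemma ibp (hn : 0 < n) {u : Euc n → ℝ} {Du : Euc n → Euc n} (h : InSobolevZero n u Du)
    {ψ : Euc n → ℝ} (hψ : ContDiff ℝ 1 ψ) (e : Euc n) :
    ∫ x, u x * fderiv ℝ ψ x e ∂(ballMeasure n) = -∫ x, ⟪Du x, e⟫ * ψ x ∂(ballMeasure n) := by
  obtain ⟨iu, iD⟩ := h.integrable hn
  obtain ⟨hu, hD, φ, hφ, l1, l2⟩ := h
  have c2 := hψ.continuous
  have c4 := continuous_fderiv_apply hψ e
  have m1 : ∀ j, MemLp (fun x => φ j x - u x) n (ballMeasure n) := fun j =>
    (memLp_of_continuous (hφ j).1.continuous n).sub hu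
  have m2 : ∀ j, MemLp (fun x => gradient (φ j) x - Du x) n (ballMeasure n) := fun j =>
    (memLp_of_continuous (continuous_gradient (hφ j).c1) n).sub hD
  have h1n : (1 : ℝ≥0∞) ≤ n := by exact_mod_cast hn
  have t1 := tendsto_L1 hn m1 l1
  have t2 := tendsto_L1 hn m2 l2
  obtain ⟨C1, hC1, b1⟩ := exists_bound_ball c4
  obtain ⟨C2, hC2, b2⟩ := exists_bound_ball c2
  rw [eq_neg_iff_add_eq_zero, ← abs_nonpos_iff]
  have t3 := (t1.mul_const C1).add (t2.mul_const (‖e‖ * C2))
  simp only [zero_mul, add_zero] at t3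
  refine ge_of_tendsto' t3 fun j => ?_
  have i1 := integrable_mul_continuous iu c4
  have i2 := integrable_mul_continuous (integrable_inner iD (continuous_const (y := e))) c2
  have i3 : Integrable (fun x => φ j x * fderiv ℝ ψ x e) (ballMeasure n) :=
    integrable_of_continuous ((hφ j).1.continuous.mul c4)
  have i4 : Integrable (fun x => fderiv ℝ (φ j) x e * ψ x) (ballMeasure n) :=
    integrable_of_continuous ((continuous_fderiv_apply (hφ j).c1 e).mul c2)
  have e0 := ibp_test (hφ j) hψ e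
  have e1 : ∫ x, (φ j x - u x) * fderiv ℝ ψ x e ∂(ballMeasure n)
      = ∫ x, φ j x * fderiv ℝ ψ x e ∂(ballMeasure n) - ∫ x, u x * fderiv ℝ ψ x e ∂(ballMeasure n) := by
    rw [← integral_sub i3 i1]; congr 1; ext x; ring
  have e2 : ∫ x, ⟪gradient (φ j) x - Du x, e⟫ * ψ x ∂(ballMeasure n)
      = ∫ x, fderiv ℝ (φ j) x e * ψ x ∂(ballMeasure n) - ∫ x, ⟪Du x, e⟫ * ψ x ∂(ballMeasure n) := by
    rw [← integral_sub i4 i2]; congr 1; ext x; rw [inner_sub_left, inner_gradient_left]; ring
  have e3 : ‖∫ x, (φ j x - u x) * fderiv ℝ ψ x e ∂(ballMeasure n)‖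
      ≤ (∫ x, ‖φ j x - u x‖ ∂(ballMeasure n)) * C1 := by
    rw [← integral_mul_const]
    refine norm_integral_le_of_norm_le (((m1 j).integrable h1n).norm.mul_const _) ?_
    filter_upwards [b1] with x hx
    rw [norm_mul]; gcongr
  have e4 : ‖∫ x, ⟪gradient (φ j) x - Du x, e⟫ * ψ x ∂(ballMeasure n)‖
      ≤ (∫ x, ‖gradient (φ j) x - Du x‖ ∂(ballMeasure n)) * (‖e‖ * C2) := by
    rw [← integral_mul_const]
    refine norm_integral_le_of_norm_le (((m2 j).integrable h1n).norm.mul_const _) ?_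
    filter_upwards [b2] with x hx
    rw [norm_mul, ← mul_assoc]
    gcongr
    exact norm_inner_le_norm _ _
  rw [e1, Real.norm_eq_abs] at e3
  rw [e2, Real.norm_eq_abs] at e4
  rw [abs_le] at e3 e4 ⊢
  constructor <;> linarith [e3.1, e3.2, e4.1, e4.2]

lemma exists_average (hn : 0 < n) {f : Euc n → ℝ} (hf : Integrable f (ballMeasure n)) :
    ∃ F : ℝ → ℝ, Measurable F ∧ IntegrableOn (fun t => Real.exp (-t) * F t) (Ioi 0) ∧
      ∀ h : ℝ → ℝ, Measurable h → (∃ C, ∀ᵐ x ∂(ballMeasure n), ‖h (T n x)‖ ≤ C) →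
        ∫ x, h (T n x) * f x ∂(ballMeasure n)
          = beta n * ∫ t in Ioi (0 : ℝ), Real.exp (-t) * (h t * F t) := by
  have hm : MeasurableSpace.comap (T n) inferInstance ≤ (inferInstance : MeasurableSpace (Euc n)) :=
    (measurable_T n).comap_le
  obtain ⟨F, hF, hFe⟩ := (stronglyMeasurable_condExp
    (m := MeasurableSpace.comap (T n) inferInstance) (μ := ballMeasure n)
    (f := f)).exists_eq_measurable_comp
  have hFi : Integrable (fun x => F (T n x)) (ballMeasure n) := by
    have := integrable_condExp (m := MeasurableSpace.comap (T n) inferInstance)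
      (μ := ballMeasure n) (f := f)
    rw [hFe] at this
    exact this
  refine ⟨F, hF.measurable, (integrable_T hn hF.aestronglyMeasurable).1 hFi, ?_⟩
  rintro h hh ⟨C, hC⟩
  have h1 : StronglyMeasurable[MeasurableSpace.comap (T n) inferInstance] fun x => h (T n x) :=
    (hh.comp (comap_measurable (T n))).stronglyMeasurable
  have h2 : Integrable ((fun x => h (T n x)) * f) (ballMeasure n) :=
    hf.bdd_mul (hh.comp (measurable_T n)).aestronglyMeasurable hC
  have h3 := condExp_mul_of_stronglyMeasurable_left h1 h2 hf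
  have h4 := integral_condExp (μ := ballMeasure n) (f := (fun x => h (T n x)) * f) hm
  rw [integral_congr_ae h3, hFe] at h4
  rw [← integral_T hn (f := fun t => h t * F t) (hh.mul hF.measurable).aestronglyMeasurable]
  exact h4.symm

lemma ibp_radial (hn : 0 < n) {u : Euc n → ℝ} {Du : Euc n → Euc n} (hu : InSobolevZero n u Du)
    {h : ℝ → ℝ} (hh : ContDiff ℝ 1 h) {b : ℝ} (hb : ∀ t, b ≤ t → h t = 0) :
    ∫ x, u x * (n * (h (T n x) - deriv h (T n x))) ∂(ballMeasure n)
      = -∫ x, h (T n x) * ⟪Du x, x⟫ ∂(ballMeasure n) := by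
  obtain ⟨iu, iD⟩ := hu.integrable hn
  set B := EuclideanSpace.basisFun (Fin n) ℝ
  have hr : ContDiff ℝ 1 (rad n h 0) := contDiff_rad hn hh hb
  have hψ : ∀ i, ContDiff ℝ 1 fun x : Euc n => rad n h 0 x * ⟪B i, x⟫ := fun i =>
    hr.mul (innerSL ℝ (B i)).contDiff
  have h1 := fun i => ibp hn hu (hψ i) (B i)
  have h2 : ∑ i, ∫ x, u x * fderiv ℝ (fun x : Euc n => rad n h 0 x * ⟪B i, x⟫) x (B i)
      ∂(ballMeasure n) = ∑ i, -∫ x, ⟪Du x, B i⟫ * (rad n h 0 x * ⟪B i, x⟫) ∂(ballMeasure n) :=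
    Finset.sum_congr rfl fun i _ => h1 i
  rw [Finset.sum_neg_distrib, ← integral_finsetSum _ fun i _ =>
      integrable_mul_continuous iu (continuous_fderiv_apply (hψ i) _),
    ← integral_finsetSum _ fun i _ =>
      integrable_mul_continuous (integrable_inner iD continuous_const) (hψ i).continuous] at h2
  convert h2 using 1
  · apply integral_congr_ae
    filter_upwards [ae_ne_zero hn] with x hx
    rw [← Finset.mul_sum]
    congr 1
    have hd := (hh.differentiable one_ne_zero (T n x)).hasDerivAt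
    have hx2 : ‖x‖ ^ 2 ≠ 0 := pow_ne_zero _ (norm_ne_zero_iff.2 hx)
    have e : ∀ i, fderiv ℝ (fun x : Euc n => rad n h 0 x * ⟪B i, x⟫) x (B i)
        = h (T n x) + deriv h (T n x) * (-(n : ℝ) / ‖x‖ ^ 2) * (⟪x, B i⟫ * ⟪B i, x⟫) := by
      intro i
      have := (hasFDerivAt_rad (c := 0) hx hd).mul (innerSL ℝ (B i)).hasFDerivAt
      have e2 : (fun x : Euc n => rad n h 0 x * ⟪B i, x⟫) = rad n h 0 * innerSL ℝ (B i) := rfl
      rw [e2, this.fderiv, rad_of_ne hx]
      have e3 : ⟪B i, B i⟫ = (1 : ℝ) := by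
        rw [real_inner_self_eq_norm_sq, B.orthonormal.1 i]; norm_num
      simp only [add_apply, smul_apply, innerSL_apply_apply, smul_eq_mul, e3]
      ring
    simp only [e]
    rw [Finset.sum_add_distrib, ← Finset.mul_sum, B.sum_inner_mul_inner,
      real_inner_self_eq_norm_sq]
    simp only [Finset.sum_const, Finset.card_univ, Fintype.card_fin, nsmul_eq_mul]
    field_simp
    ring
  · congr 1
    apply integral_congr_ae
    filter_upwards [ae_ne_zero hn] with x hx
    rw [← B.sum_inner_mul_inner (Du x) x, Finset.mul_sum, rad_of_ne hx]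
    exact Finset.sum_congr rfl fun i _ => by ring

end Pool.Agent.P.MP_3a5611_an
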