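import Pool.Agent.P.MP_3a5611_an.Profile

/-!
Reduction of the weak radial problem to the ODE, and the final two-sided energy estimate.
-/

open Filter Topology MeasureTheory Metric Set
open scoped ContDiff RealInnerProductSpace ENNReal

set_option linter.dupNamespace false

namespace Pool.Agent.P.MP_3a5611_an

lemma isTest_rad {n : ℕ} (hn : 0 < n) {χ : ℝ → ℝ} (hχ : Test1 χ) :
    ∃ c, IsTest (rad n (fun t => ∫ s in (0 : ℝ)..t, χ s) c) := by
  have hn' : (0 : ℝ) < n := by positivity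
  obtain ⟨b, -, hb⟩ := exists_upper hχ.2.1
  obtain ⟨a, ha0, ha⟩ := hχ.2.1.isCompact.exists_forall_le' (f := id) continuousOn_id
    (a := 0) fun t ht => hχ.2.2 ht
  have hz : ∀ t, t < a → ∫ s in (0 : ℝ)..t, χ s = 0 := fun t ht => by
    refine Eq.trans (intervalIntegral.integral_congr (g := fun _ => (0 : ℝ)) fun s hs => ?_)
      intervalIntegral.integral_zero
    refine image_eq_zero_of_notMem_tsupport fun h => ?_
    have h1 : a ≤ s := ha s h
    have h2 : s ≤ max 0 t := hs.2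
    have := max_lt ha0 ht
    linarith
  refine ⟨∫ s in (0 : ℝ)..b, χ s, contDiff_rad hn (contDiff_infty_primitive hχ.1)
    (primitive_const hχ.1.continuous hb), ?_⟩
  have hs : tsupport (rad n (fun t => ∫ s in (0 : ℝ)..t, χ s) (∫ s in (0 : ℝ)..b, χ s))
      ⊆ closedBall 0 (Real.exp (-a / n)) := by
    apply closure_minimal _ isClosed_closedBall
    intro x hx
    by_cases hx0 : x = 0
    · rw [hx0]; exact mem_closedBall_self (Real.exp_pos _).le
    · rw [mem_closedBall_zero_iff, ← le_T_iff hn hx0]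
      by_contra hc
      exact hx (by rw [rad_of_ne hx0]; exact hz _ (not_le.1 hc))
  refine ⟨(isCompact_closedBall _ _).of_isClosed_subset (isClosed_tsupport _) hs,
    hs.trans (closedBall_subset_ball ?_)⟩
  rw [Real.exp_lt_one_iff]
  exact div_neg_of_neg_of_pos (by linarith) hn'

theorem reduction {m n : ℕ} (hnm : n = m + 1) (hm : 2 ≤ m) {lam : ℝ} (hlam : 0 < lam)
    {u : Euc n → ℝ} {Du : Euc n → Euc n} (h : IsRadialSolution n lam u Du) :
    ∃ D : Data m, energy n Du = (n : ℝ) ^ m * sphereArea n * D.A 0 ∧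
      ∀ᵐ x ∂(ballMeasure n), u x ≤ D.γ := by
  have hn : 0 < n := by omega
  have hn' : (0 : ℝ) < n := by positivity
  have hβ := beta_pos n
  obtain ⟨v, hv⟩ := h.radial
  obtain ⟨z0, mz, hI, iz, hy⟩ := exists_profile hn h.sobolev hv
  have hD := gradient_radial hn h.sobolev mz hI iz hy
  have ycont : Continuous fun t => ∫ s in (0 : ℝ)..t, z0 s :=
    intervalIntegral.continuous_primitive hI 0
  have hnorm : ∀ᵐ x ∂(ballMeasure n), ‖Du x‖ = n * |z0 (T n x)| / ‖x‖ := by
    filter_upwards [hD, ae_ne_zero hn] with x h1 hx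
    have hx' : 0 < ‖x‖ := norm_pos_iff.2 hx
    rw [h1, norm_smul, Real.norm_eq_abs, abs_div, abs_mul, abs_neg, abs_of_pos hn',
      abs_of_pos (by positivity : 0 < ‖x‖ ^ 2)]
    field_simp
  have hexp : ∀ x : Euc n, x ≠ 0 → Real.exp (T n x) = (‖x‖ ^ n)⁻¹ := fun x hx => by
    rw [← exp_neg_T hx, Real.exp_neg, inv_inv]
  have hpow : ∀ᵐ x ∂(ballMeasure n),
      ‖Du x‖ ^ n = (n : ℝ) ^ n * (Real.exp (T n x) * |z0 (T n x)| ^ n) := by
    filter_upwards [hnorm, ae_ne_zero hn] with x h1 hx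
    rw [h1, hexp x hx, div_pow, mul_pow]; ring
  have mE : Measurable fun t => (n : ℝ) ^ n * (Real.exp t * |z0 t| ^ n) := by fun_prop
  have eE : (fun t => Real.exp (-t) * ((n : ℝ) ^ n * (Real.exp t * |z0 t| ^ n)))
      = fun t => (n : ℝ) ^ n * |z0 t| ^ n := by
    ext t; rw [Real.exp_neg]; field_simp
  have hint : IntegrableOn (fun t => |z0 t| ^ n) (Ioi 0) := by
    have h1 := (integrable_T hn mE.aestronglyMeasurable).1
      ((h.sobolev.2.1.integrable_norm_pow hn.ne').congr hpow)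
    rw [eE] at h1
    exact (integrable_const_mul_iff (IsUnit.mk0 _ (by positivity)) _).1 h1
  have hE : energy n Du = beta n * ((n : ℝ) ^ n * ∫ t in Ioi (0 : ℝ), |z0 t| ^ n) := by
    unfold energy
    rw [integral_congr_ae hpow, integral_T hn mE.aestronglyMeasurable, eE, integral_const_mul]
  have hpos : ∀ᵐ t ∂(volume.restrict (Ioi (0 : ℝ))), 0 < ∫ s in (0 : ℝ)..t, z0 s := by
    apply ae_of_ae_T hn (measurableSet_lt measurable_const ycont.measurable)
    filter_upwards [hy, h.pos] with x h1 h2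
    rwa [← h1]
  obtain ⟨D, hA, hγ⟩ := exists_data hm hI (hnm ▸ hint) hpos (Λ := lam / (n : ℝ) ^ n) (by positivity)
    (fun χ hχ => by
      obtain ⟨c, hc⟩ := isTest_rad hn hχ
      have w := h.weak _ hc
      have cχ := hχ.1.continuous
      have hn2 : n - 2 = m - 1 := by omega
      have l1 : ∫ x, ‖Du x‖ ^ (n - 2) *
          ⟪Du x, gradient (rad n (fun t => ∫ s in (0 : ℝ)..t, χ s) c) x⟫ ∂(ballMeasure n)
          = ∫ x, (n : ℝ) ^ n * (Real.exp (T n x) * (χ (T n x) *
            (|z0 (T n x)| ^ (m - 1) * z0 (T n x)))) ∂(ballMeasure n) := by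
        apply integral_congr_ae
        filter_upwards [hnorm, hD, ae_ne_zero hn] with x h1 h2 hx
        have hx' : 0 < ‖x‖ := norm_pos_iff.2 hx
        rw [real_inner_comm, inner_gradient_left, fderiv_rad hx (hasDerivAt_primitive cχ _), h1,
          hexp x hx, hn2]
        have e1 : ⟪x, Du x⟫ = -(n : ℝ) * z0 (T n x) := by
          rw [h2, real_inner_smul_right, real_inner_self_eq_norm_sq]; field_simp
        have e2 : ∀ r : ℝ, r ^ n = r ^ (m - 1) * r ^ 2 := fun r => by
          rw [← pow_add]; congr 1; omega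
        rw [e1, e2, e2, div_pow, mul_pow]
        field_simp
      have l2 := integral_T hn (f := fun t => (n : ℝ) ^ n * (Real.exp t * (χ t *
            (|z0 t| ^ (m - 1) * z0 t))))
        (Measurable.aestronglyMeasurable (by have := cχ.measurable; fun_prop))
      have l3 : (fun t => Real.exp (-t) * ((n : ℝ) ^ n * (Real.exp t * (χ t *
            (|z0 t| ^ (m - 1) * z0 t))))) = fun t => (n : ℝ) ^ n * (χ t *
            (|z0 t| ^ (m - 1) * z0 t)) := by
        ext t; rw [Real.exp_neg]; field_simp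
      have r1 : ∫ x, |u x| ^ (n - 2) * u x * Real.exp (u x ^ ((n : ℝ) / ((n : ℝ) - 1))) *
          rad n (fun t => ∫ s in (0 : ℝ)..t, χ s) c x ∂(ballMeasure n)
          = ∫ x, gfun m (∫ s in (0 : ℝ)..T n x, z0 s) * (∫ s in (0 : ℝ)..T n x, χ s)
            ∂(ballMeasure n) := by
        apply integral_congr_ae
        filter_upwards [hy, ae_ne_zero hn] with x h1 hx
        rw [rad_of_ne hx, ← h1, hn2]
        unfold gfun
        have : (n : ℝ) / ((n : ℝ) - 1) = ((m : ℝ) + 1) / m := by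
          rw [hnm]; push_cast; ring
        rw [this]
      have r2 := integral_T hn (f := fun t => gfun m (∫ s in (0 : ℝ)..t, z0 s) *
          ∫ s in (0 : ℝ)..t, χ s)
        (Measurable.aestronglyMeasurable (((measurable_gfun m).comp ycont.measurable).mul
          (contDiff_one_primitive cχ).continuous.measurable))
      rw [l1, l2, l3, r1, r2, integral_const_mul] at w
      have r3 : ∫ t in Ioi (0 : ℝ), gfun m (∫ s in (0 : ℝ)..t, z0 s) * Real.exp (-t) *
          ∫ s in (0 : ℝ)..t, χ s = ∫ t in Ioi (0 : ℝ), Real.exp (-t) *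
            (gfun m (∫ s in (0 : ℝ)..t, z0 s) * ∫ s in (0 : ℝ)..t, χ s) := by
        congr 1; ext t; ring
      rw [r3, div_mul_eq_mul_div, eq_div_iff (by positivity)]
      apply mul_left_cancel₀ hβ.ne'
      linarith)
  refine ⟨D, ?_, ?_⟩
  · rw [hE, hA, sphereArea_eq hn, ← hnm, show (n : ℝ) ^ n = n ^ m * n by rw [← pow_succ, ← hnm]]
    ring
  · filter_upwards [hy, ae_T_pos hn] with x h1 h2
    rw [h1]; exact hγ _ h2

lemma sphereArea_pos {n : ℕ} (hn : 0 < n) : 0 < sphereArea n := by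
  rw [sphereArea_eq hn]; have := beta_pos n; positivity

theorem eventually_bounds {n : ℕ} (hn : 3 ≤ n) {lam : ℕ → ℝ} {u : ℕ → Euc n → ℝ}
    {Du : ℕ → Euc n → Euc n} (hlam : ∀ k, 0 < lam k)
    (hsol : ∀ k, IsRadialSolution n (lam k) (u k) (Du k)) (hb : BlowsUp n u)
    (η : ℝ) (hη : 0 < η) : ∀ᶠ k in atTop,
      (1 - η) * ((n : ℝ) ^ (n - 1) * sphereArea n) ≤ energy n (Du k) ∧
        energy n (Du k) < (n : ℝ) ^ (n - 1) * sphereArea n := by
  obtain ⟨m, rfl⟩ : ∃ m, n = m + 1 := ⟨n - 1, by omega⟩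
  have hm : 2 ≤ m := by omega
  obtain ⟨γ₀, hγ₀⟩ := ode_main m hm η hη
  have hc : 0 < ((m + 1 : ℕ) : ℝ) ^ m * sphereArea (m + 1) := by
    have := sphereArea_pos (Nat.succ_pos m); positivity
  filter_upwards [hb.eventually (lt_mem_nhds (EReal.coe_lt_top γ₀))] with k hk
  obtain ⟨D, hE, hu⟩ := reduction rfl hm (hlam k) (hsol k)
  have h1 : essSup (fun x => (u k x : EReal)) (ballMeasure (m + 1)) ≤ (D.γ : EReal) :=
    essSup_le_of_ae_le _ (hu.mono fun x hx => EReal.coe_le_coe_iff.2 hx)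
  have h2 : γ₀ ≤ D.γ := EReal.coe_le_coe_iff.1 (hk.le.trans h1)
  obtain ⟨a1, a2⟩ := hγ₀ D h2
  rw [Nat.add_sub_cancel, hE]
  constructor <;> nlinarith

end Pool.Agent.P.MP_3a5611_an
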