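import Mathlib

/-!
Radial ODE analysis for the `n`-Laplacian Moser-Trudinger equation, in Emden-Fowler variables.
Here `m = n - 1`, `y' = z`, `w = z ^ m`, `w' = -Ψ`, `q = y ^ (1/m)`, `Ψ = y ^ m exp (y q - t + L)`,
and `A t` is the energy tail.
-/

open Filter Topology Set

set_option linter.dupNamespace false

namespace Pool.Agent.P.MP_3a5611_an

lemma le_lim_of_deriv_nonneg {F F' : ℝ → ℝ} {a l : ℝ}
    (hF : ∀ s, a ≤ s → HasDerivAt F (F' s) s) (h0 : ∀ s, a ≤ s → 0 ≤ F' s)
    (hl : Tendsto F atTop (𝓝 l)) : F a ≤ l := by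
  have hmono : MonotoneOn F (Ici a) := by
    apply monotoneOn_of_deriv_nonneg (convex_Ici a)
    · exact fun s hs => (hF s hs).continuousAt.continuousWithinAt
    · intro s hs
      rw [interior_Ici] at hs
      exact (hF s (le_of_lt hs)).differentiableAt.differentiableWithinAt
    · intro s hs
      rw [interior_Ici] at hs
      rw [(hF s (le_of_lt hs)).deriv]
      exact h0 s (le_of_lt hs)
  apply ge_of_tendsto hl
  filter_upwards [eventually_ge_atTop a] with s hs
  exact hmono (mem_Ici.2 le_rfl) hs hs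

lemma le_of_deriv_nonneg' {F F' : ℝ → ℝ} {a b : ℝ} (hab : a ≤ b)
    (hc : ContinuousOn F (Icc a b))
    (hF : ∀ s, a < s → s < b → HasDerivAt F (F' s) s) (h0 : ∀ s, a < s → s < b → 0 ≤ F' s) :
    F a ≤ F b := by
  have hmono : MonotoneOn F (Icc a b) := by
    apply monotoneOn_of_deriv_nonneg (convex_Icc a b) hc
    · intro s hs
      rw [interior_Icc] at hs
      exact (hF s hs.1 hs.2).differentiableAt.differentiableWithinAt
    · intro s hs
      rw [interior_Icc] at hs
      rw [(hF s hs.1 hs.2).deriv]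
      exact h0 s hs.1 hs.2
  exact hmono ⟨le_rfl, hab⟩ ⟨hab, le_rfl⟩ hab

lemma le_of_deriv_nonneg {F F' : ℝ → ℝ} {a b : ℝ} (hab : a ≤ b)
    (hF : ∀ s, a ≤ s → s ≤ b → HasDerivAt F (F' s) s) (h0 : ∀ s, a ≤ s → s ≤ b → 0 ≤ F' s) :
    F a ≤ F b :=
  le_of_deriv_nonneg' hab (fun s hs => (hF s hs.1 hs.2).continuousAt.continuousWithinAt)
    (fun s h1 h2 => hF s h1.le h2.le) (fun s h1 h2 => h0 s h1.le h2.le)

/-- A bounded solution of the radial ODE with all the derived quantities. -/
structure Data (m : ℕ) where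
  y : ℝ → ℝ
  z : ℝ → ℝ
  w : ℝ → ℝ
  q : ℝ → ℝ
  P : ℝ → ℝ
  A : ℝ → ℝ
  L : ℝ
  γ : ℝ
  κ : ℝ
  hm : 2 ≤ m
  ypos : ∀ t, 0 < t → 0 < y t
  zpos : ∀ t, 0 < t → 0 < z t
  qpos : ∀ t, 0 < t → 0 < q t
  hqy : ∀ t, 0 < t → q t ^ m = y t
  hzw : ∀ t, 0 < t → z t ^ m = w t
  hP : ∀ t, 0 < t → P t = y t ^ m * Real.exp (y t * q t - t + L)
  dy : ∀ t, 0 < t → HasDerivAt y (z t) t
  dw : ∀ t, 0 < t → HasDerivAt w (-P t) t
  dz : ∀ t, 0 < t → HasDerivAt z (-(z t * P t) / (m * w t)) t
  dq : ∀ t, 0 < t → HasDerivAt q (q t * z t / (m * y t)) t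
  dA : ∀ t, 0 < t → HasDerivAt A (-(z t * w t)) t
  y0 : y 0 = 0
  cy : ContinuousWithinAt y (Ici 0) 0
  cw : ContinuousWithinAt w (Ici 0) 0
  cA : ContinuousWithinAt A (Ici 0) 0
  ly : Tendsto y atTop (𝓝 γ)
  lq : Tendsto q atTop (𝓝 κ)
  lw : Tendsto w atTop (𝓝 0)
  lz : Tendsto z atTop (𝓝 0)
  lA : Tendsto A atTop (𝓝 0)
  hκ : κ ^ m = γ

namespace Data

variable {m : ℕ} (D : Data m)

include D in
lemma mpos : (0 : ℝ) < m := by have := D.hm; positivity

include D in
lemma m2 : (2 : ℝ) ≤ m := by exact_mod_cast D.hm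

lemma wpos (t : ℝ) (ht : 0 < t) : 0 < D.w t := by
  rw [← D.hzw t ht]; exact pow_pos (D.zpos t ht) _

lemma Ppos (t : ℝ) (ht : 0 < t) : 0 < D.P t := by
  rw [D.hP t ht]; have := D.ypos t ht; positivity

lemma y_mono {s t : ℝ} (hs : 0 < s) (hst : s ≤ t) : D.y s ≤ D.y t :=
  le_of_deriv_nonneg hst (fun r h _ => D.dy r (hs.trans_le h))
    (fun r h _ => (D.zpos r (hs.trans_le h)).le)

lemma w_anti {s t : ℝ} (hs : 0 < s) (hst : s ≤ t) : D.w t ≤ D.w s := by
  have := le_of_deriv_nonneg (F := fun r => -D.w r) (F' := fun r => D.P r) hst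
    (fun r h _ => (D.dw r (hs.trans_le h)).neg.congr_deriv (neg_neg _))
    (fun r h _ => (D.Ppos r (hs.trans_le h)).le)
  linarith

lemma z_anti {s t : ℝ} (hs : 0 < s) (hst : s ≤ t) : D.z t ≤ D.z s := by
  have ht := hs.trans_le hst
  have h := D.w_anti hs hst
  rw [← D.hzw s hs, ← D.hzw t ht] at h
  have hm : m ≠ 0 := by have := D.hm; omega
  exact (pow_le_pow_iff_left₀ (D.zpos t ht).le (D.zpos s hs).le hm).1 h

lemma y_le (t : ℝ) (ht : 0 < t) : D.y t ≤ D.γ :=
  le_lim_of_deriv_nonneg (fun s hs => D.dy s (ht.trans_le hs))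
    (fun s hs => (D.zpos s (ht.trans_le hs)).le) D.ly

lemma γpos : 0 < D.γ := (D.ypos 1 one_pos).trans_le (D.y_le 1 one_pos)

lemma q_le (t : ℝ) (ht : 0 < t) : D.q t ≤ D.κ :=
  le_lim_of_deriv_nonneg (fun s hs => D.dq s (ht.trans_le hs))
    (fun s hs => by
      have h := ht.trans_le hs
      have := D.zpos s h; have := D.qpos s h; have := D.ypos s h; have := D.mpos
      positivity) D.lq

lemma κpos : 0 < D.κ := (D.qpos 1 one_pos).trans_le (D.q_le 1 one_pos)

/-- `q / y` is antitone in `y`. -/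
lemma aux_ratio {a b : ℝ} {k : ℕ} (hk : 1 ≤ k) (ha : 0 < a) (hab : a ≤ b) :
    b / b ^ k ≤ a / a ^ k := by
  obtain ⟨j, rfl⟩ := Nat.exists_eq_add_of_le hk
  have hb := ha.trans_le hab
  have h1 : b / b ^ (1 + j) = 1 / b ^ j := by rw [pow_add]; field_simp
  have h2 : a / a ^ (1 + j) = 1 / a ^ j := by rw [pow_add]; field_simp
  rw [h1, h2]
  exact one_div_le_one_div_of_le (pow_pos ha _) (pow_le_pow_left₀ ha.le hab _)

lemma q_mono {s t : ℝ} (hs : 0 < s) (hst : s ≤ t) : D.q s ≤ D.q t := by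
  have ht := hs.trans_le hst
  have h := D.y_mono hs hst
  rw [← D.hqy s hs, ← D.hqy t ht] at h
  have hm : m ≠ 0 := by have := D.hm; omega
  exact (pow_le_pow_iff_left₀ (D.qpos s hs).le (D.qpos t ht).le hm).1 h

lemma qy_anti {s t : ℝ} (hs : 0 < s) (hst : s ≤ t) : D.q t / D.y t ≤ D.q s / D.y s := by
  have ht := hs.trans_le hst
  rw [← D.hqy s hs, ← D.hqy t ht]
  exact aux_ratio (by have := D.hm; omega) (D.qpos s hs) (D.q_mono hs hst)

lemma qy_ge (t : ℝ) (ht : 0 < t) : D.κ / D.γ ≤ D.q t / D.y t := by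
  rw [← D.hqy t ht, ← D.hκ]
  exact aux_ratio (by have := D.hm; omega) (D.qpos t ht) (D.q_le t ht)

lemma dP (t : ℝ) (ht : 0 < t) :
    HasDerivAt D.P (D.P t * (m * D.z t / D.y t + (1 + 1 / m) * D.q t * D.z t - 1)) t := by
  have h1 : HasDerivAt (fun s => D.y s ^ m * Real.exp (D.y s * D.q s - s + D.L))
      (((m : ℝ) * D.y t ^ (m - 1) * D.z t) * Real.exp (D.y t * D.q t - t + D.L) +
        D.y t ^ m * (Real.exp (D.y t * D.q t - t + D.L) *
          (D.z t * D.q t + D.y t * (D.q t * D.z t / (m * D.y t)) - 1))) t := by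
    apply HasDerivAt.mul ((D.dy t ht).pow m)
    apply HasDerivAt.exp
    exact (((D.dy t ht).mul (D.dq t ht)).sub (hasDerivAt_id t)).add_const _
  have h2 : D.P =ᶠ[𝓝 t] fun s => D.y s ^ m * Real.exp (D.y s * D.q s - s + D.L) := by
    filter_upwards [lt_mem_nhds ht] with s hs using D.hP s hs
  refine (h1.congr_of_eventuallyEq h2).congr_deriv ?_
  rw [D.hP t ht]
  have hy := D.ypos t ht
  have hm := D.mpos
  have hm1 : D.y t ^ m = D.y t ^ (m - 1) * D.y t := by
    rw [← pow_succ]; congr 1; have := D.hm; omega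
  rw [hm1]
  field_simp
  ring

lemma lP : Tendsto D.P atTop (𝓝 0) := by
  have h1 : Tendsto (fun t => D.y t ^ m * Real.exp (D.y t * D.q t + D.L) * Real.exp (-t)) atTop
      (𝓝 (D.γ ^ m * Real.exp (D.γ * D.κ + D.L) * 0)) := by
    apply Tendsto.mul
    · exact (D.ly.pow m).mul (((D.ly.mul D.lq).add_const _).rexp)
    · exact Real.tendsto_exp_neg_atTop_nhds_zero
  rw [mul_zero] at h1
  refine h1.congr' ?_
  filter_upwards [eventually_gt_atTop 0] with t ht
  rw [D.hP t ht, mul_assoc, ← Real.exp_add]; congr 2; ring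

/-- The Pohozaev-type remainder. -/
def Q (t : ℝ) : ℝ := D.w t - D.w t * D.z t * D.q t - D.P t

lemma dzw (t : ℝ) (ht : 0 < t) :
    HasDerivAt (fun s => D.z s * D.w s) (-((1 + 1 / m) * (D.z t * D.P t))) t := by
  refine ((D.dz t ht).mul (D.dw t ht)).congr_deriv ?_
  have := D.wpos t ht; have := D.mpos
  field_simp
  ring

lemma dQ (t : ℝ) (ht : 0 < t) :
    HasDerivAt D.Q (-(m * D.z t * D.P t / D.y t + D.z t ^ 2 * D.w t * (D.q t / D.y t) / m)) t := by
  have h := ((D.dw t ht).sub (((D.dw t ht).mul (D.dz t ht)).mul (D.dq t ht))).sub (D.dP t ht)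
  refine HasDerivAt.congr_deriv h ?_
  have := D.wpos t ht; have := D.mpos; have := D.ypos t ht
  simp only [Pi.mul_apply]
  field_simp
  ring

lemma lQ : Tendsto D.Q atTop (𝓝 0) := by
  have := (D.lw.sub ((D.lw.mul D.lz).mul D.lq)).sub D.lP
  simp only [zero_mul, sub_zero] at this
  exact this

lemma Q_anti {s t : ℝ} (hs : 0 < s) (hst : s ≤ t) : D.Q t ≤ D.Q s := by
  have := le_of_deriv_nonneg (F := fun r => -D.Q r)
    (F' := fun r => m * D.z r * D.P r / D.y r + D.z r ^ 2 * D.w r * (D.q r / D.y r) / m) hst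
    (fun r h _ => (D.dQ r (hs.trans_le h)).neg.congr_deriv (neg_neg _))
    (fun r h _ => by
      have h := hs.trans_le h
      have := D.zpos r h; have := D.qpos r h; have := D.ypos r h; have := D.mpos
      have := D.wpos r h; have := D.Ppos r h
      positivity)
  linarith

lemma Q_nonneg (t : ℝ) (ht : 0 < t) : 0 ≤ D.Q t := by
  apply le_of_tendsto D.lQ
  filter_upwards [eventually_ge_atTop t] with s hs using D.Q_anti ht hs

lemma Q_le (t : ℝ) (ht : 0 < t) :
    D.Q t ≤ m * (D.z t * D.w t) / D.y t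
      + D.z t * D.w t * (D.q t / D.y t) * (D.γ - D.y t) / m := by
  have hl : Tendsto (fun s => D.Q s - m * (D.z s * D.w s) / D.y t
      - D.z t * D.w t * (D.q t / D.y t) * (D.γ - D.y s) / m) atTop
      (𝓝 (0 - m * (0 * 0) / D.y t - D.z t * D.w t * (D.q t / D.y t) * (D.γ - D.γ) / m)) := by
    refine (D.lQ.sub (((D.lz.mul D.lw).const_mul _).div_const _)).sub ?_
    exact ((tendsto_const_nhds.sub D.ly).const_mul _).div_const _
  have := le_lim_of_deriv_nonneg (a := t)
    (F' := fun s => -(m * D.z s * D.P s / D.y s + D.z s ^ 2 * D.w s * (D.q s / D.y s) / m)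
      - m * (-((1 + 1 / m) * (D.z s * D.P s))) / D.y t
      - D.z t * D.w t * (D.q t / D.y t) * (0 - D.z s) / m)
    (fun s hs => by
      have h := ht.trans_le hs
      exact ((D.dQ s h).sub (((D.dzw s h).const_mul _).div_const _)).sub
        ((((hasDerivAt_const s D.γ).sub (D.dy s h)).const_mul _).div_const _))
    (fun s hs => by
      have h := ht.trans_le hs
      have hz := D.zpos s h; have hq := D.qpos s h; have hy := D.ypos s h; have hm := D.mpos
      have hw := D.wpos s h; have hP := D.Ppos s h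
      have hyt := D.ypos t ht
      have h1 : m * D.z s * D.P s / D.y s ≤ m * D.z s * D.P s / D.y t :=
        div_le_div_of_nonneg_left (by positivity) hyt (D.y_mono ht hs)
      have h2 : D.z s * D.w s * (D.q s / D.y s) ≤ D.z t * D.w t * (D.q t / D.y t) := by
        have a1 := D.z_anti ht hs; have a2 := D.w_anti ht hs; have a3 := D.qy_anti ht hs
        have := D.zpos t ht; have := D.wpos t ht
        gcongr
      have h3 : D.z s ^ 2 * D.w s * (D.q s / D.y s) / m
          ≤ D.z t * D.w t * (D.q t / D.y t) * D.z s / m := by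
        apply div_le_div_of_nonneg_right _ hm.le
        nlinarith
      have h4 : m * ((1 + 1 / m) * (D.z s * D.P s)) / D.y t
          = m * D.z s * D.P s / D.y t + D.z s * D.P s / D.y t := by
        field_simp
      have h5 : 0 ≤ D.z s * D.P s / D.y t := by positivity
      have h6 : -(m * D.z s * D.P s / D.y s + D.z s ^ 2 * D.w s * (D.q s / D.y s) / m)
        - m * (-((1 + 1 / m) * (D.z s * D.P s))) / D.y t
        - D.z t * D.w t * (D.q t / D.y t) * (0 - D.z s) / m
        = -(m * D.z s * D.P s / D.y s + D.z s ^ 2 * D.w s * (D.q s / D.y s) / m)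
        + m * (((1 + 1 / m) * (D.z s * D.P s))) / D.y t
        + D.z t * D.w t * (D.q t / D.y t) * D.z s / m := by ring
      rw [h6, h4]
      linarith)
    hl
  simp only [sub_self, mul_zero, zero_div] at this
  linarith

lemma P_le_w (t : ℝ) (ht : 0 < t) : D.P t ≤ D.w t := by
  have h := D.Q_nonneg t ht
  have := D.zpos t ht; have := D.qpos t ht; have := D.wpos t ht
  have : 0 ≤ D.w t * D.z t * D.q t := by positivity
  unfold Q at h
  linarith

/-- Exponential smallness of `P / w` below the concentration level. -/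
lemma X_le (t : ℝ) (ht : 0 < t) (h2 : D.γ ≤ 2 * D.y t) :
    D.P t / D.w t ≤ Real.exp (-((D.κ / D.γ) * (2 * D.y t - D.γ) * (D.γ - D.y t) / m)) := by
  set c : ℝ := (D.κ / D.γ) * (2 * D.y t - D.γ) / m with hc
  have hm := D.mpos
  have key : ∀ s, t ≤ s → Real.log (D.P t) - Real.log (D.w t) - c * D.y t ≤ - c * D.y s := by
    intro s hs
    have := le_of_deriv_nonneg (F := fun r => Real.log (D.P r) - Real.log (D.w r) - c * D.y r)
      (F' := fun r => (D.P r * (m * D.z r / D.y r + (1 + 1 / m) * D.q r * D.z r - 1)) / D.P r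
        - (-D.P r) / D.w r - c * D.z r) hs
      (fun r h _ => by
        have h := ht.trans_le h
        exact (((D.dP r h).log (D.Ppos r h).ne').sub ((D.dw r h).log (D.wpos r h).ne')).sub
          ((D.dy r h).const_mul c))
      (fun r hr _ => by
        have h := ht.trans_le hr
        have hz := D.zpos r h; have hq := D.qpos r h; have hy := D.ypos r h
        have hw := D.wpos r h; have hP := D.Ppos r h
        have hQ := D.Q_le r h
        have e1 : (D.P r * (m * D.z r / D.y r + (1 + 1 / m) * D.q r * D.z r - 1)) / D.P r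
            - (-D.P r) / D.w r
            = m * D.z r / D.y r + D.q r * D.z r / m - D.Q r / D.w r := by
          unfold Q
          field_simp
          ring
        have e2 : D.Q r / D.w r ≤ m * D.z r / D.y r
            + D.z r * (D.q r / D.y r) * (D.γ - D.y r) / m := by
          rw [div_le_iff₀ hw]
          refine hQ.trans (le_of_eq ?_)
          field_simp
        have e3 : D.q r * D.z r / m - D.z r * (D.q r / D.y r) * (D.γ - D.y r) / m
            = (D.q r / D.y r) * (2 * D.y r - D.γ) / m * D.z r := by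
          field_simp
          ring
        have e4 : c ≤ (D.q r / D.y r) * (2 * D.y r - D.γ) / m := by
          rw [hc]
          have a1 := D.qy_ge r h
          have a2 := D.y_mono ht hr
          have a3 : 0 ≤ D.κ / D.γ := div_nonneg D.κpos.le D.γpos.le
          gcongr
        have e5 : c * D.z r ≤ (D.q r / D.y r) * (2 * D.y r - D.γ) / m * D.z r :=
          mul_le_mul_of_nonneg_right e4 hz.le
        rw [e1]
        linarith)
    have hs0 := ht.trans_le hs
    have : Real.log (D.P s) ≤ Real.log (D.w s) :=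
      Real.log_le_log (D.Ppos s hs0) (D.P_le_w s hs0)
    linarith
  have hl : Tendsto (fun s => - c * D.y s) atTop (𝓝 (- c * D.γ)) := D.ly.const_mul _
  have h3 : Real.log (D.P t) - Real.log (D.w t) - c * D.y t ≤ - c * D.γ := by
    apply ge_of_tendsto hl
    filter_upwards [eventually_ge_atTop t] with s hs using key s hs
  rw [← Real.exp_log (div_pos (D.Ppos t ht) (D.wpos t ht)),
    Real.log_div (D.Ppos t ht).ne' (D.wpos t ht).ne']
  apply Real.exp_le_exp.2
  have : (D.κ / D.γ) * (2 * D.y t - D.γ) * (D.γ - D.y t) / m = c * (D.γ - D.y t) := by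
    rw [hc]; ring
  rw [this]
  linarith

/-- The energy identity, as an inequality. -/
lemma A_le (t : ℝ) (ht : 0 < t) :
    D.A t ≤ m * (D.y t * D.Q t) - m * (m - 1) * (D.z t * D.w t)
      + (m + 1) * D.Q t * (D.γ - D.y t) := by
  have hm := D.mpos
  have hl : Tendsto (fun s => D.A s - m * (D.y s * D.Q s) + m * (m - 1) * (D.z s * D.w s)
      - (m + 1) * D.Q t * (D.γ - D.y s)) atTop
      (𝓝 (0 - m * (D.γ * 0) + m * (m - 1) * (0 * 0) - (m + 1) * D.Q t * (D.γ - D.γ))) :=
    ((D.lA.sub ((D.ly.mul D.lQ).const_mul _)).add ((D.lz.mul D.lw).const_mul _)).sub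
      ((tendsto_const_nhds.sub D.ly).const_mul _)
  have := le_lim_of_deriv_nonneg (a := t)
    (F' := fun s => (m + 1) * D.z s * (D.Q t - D.Q s))
    (fun s hs => by
      have h := ht.trans_le hs
      have := (((D.dA s h).sub (((D.dy s h).mul (D.dQ s h)).const_mul (m : ℝ))).add
        ((D.dzw s h).const_mul ((m : ℝ) * (m - 1)))).sub
        (((hasDerivAt_const s D.γ).sub (D.dy s h)).const_mul (((m : ℝ) + 1) * D.Q t))
      refine HasDerivAt.congr_deriv this ?_
      have hy := D.ypos s h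
      have hQ : D.Q s = D.w s - D.w s * D.z s * D.q s - D.P s := rfl
      rw [hQ]
      field_simp
      ring)
    (fun s hs => by
      have h := ht.trans_le hs
      have := D.zpos s h
      have := D.Q_anti ht hs
      have : 0 ≤ D.Q t - D.Q s := by linarith
      positivity)
    hl
  simp only [sub_self, mul_zero, add_zero] at this
  linarith

lemma yw_eq (t : ℝ) (ht : 0 < t) : D.y t * D.w t = (D.q t * D.z t) ^ m := by
  rw [mul_pow, D.hqy t ht, D.hzw t ht]

lemma qz_eq (t : ℝ) (ht : 0 < t) : D.q t * D.z t = 1 - D.P t / D.w t - D.Q t / D.w t := by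
  have := D.wpos t ht
  unfold Q
  field_simp
  ring

lemma yw_mul_le (t : ℝ) (ht : 0 < t) : D.y t * D.w t + m * (D.y t * D.Q t) ≤ 1 := by
  have hw := D.wpos t ht
  set R := D.Q t / D.w t with hR
  have hR0 : 0 ≤ R := div_nonneg (D.Q_nonneg t ht) hw.le
  have h1 : D.q t * D.z t ≤ 1 - R := by
    rw [D.qz_eq t ht]
    have := div_pos (D.Ppos t ht) hw
    linarith
  have h0 : 0 < D.q t * D.z t := mul_pos (D.qpos t ht) (D.zpos t ht)
  have h2 : D.y t * D.w t + m * (D.y t * D.Q t) = (D.y t * D.w t) * (1 + m * R) := by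
    rw [hR]; field_simp
  have h3 : 1 + m * R ≤ (1 + R) ^ m := one_add_mul_le_pow (by linarith) m
  have h4 : (D.q t * D.z t) ^ m ≤ (1 - R) ^ m := pow_le_pow_left₀ h0.le h1 m
  rw [h2, D.yw_eq t ht]
  calc (D.q t * D.z t) ^ m * (1 + m * R) ≤ (1 - R) ^ m * (1 + R) ^ m := by
        apply mul_le_mul h4 h3 (by positivity) (pow_nonneg (by linarith) _)
    _ = (1 - R ^ 2) ^ m := by rw [← mul_pow]; ring_nf
    _ ≤ 1 := pow_le_one₀ (by nlinarith) (by nlinarith)

/-- From the level `t` down to the boundary. -/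
lemma A0_le (t : ℝ) (ht : 0 < t) (C : ℝ)
    (hC : ∀ s, 0 < s → s ≤ t → D.y s * D.P s ≤ C * D.z s) :
    D.A 0 ≤ D.y t * D.w t + D.A t + C * D.y t := by
  have := le_of_deriv_nonneg' (F := fun s => D.y s * D.w s + D.A s + C * D.y s)
    (F' := fun s => C * D.z s - D.y s * D.P s) ht.le
    (by
      intro s hs
      rcases hs.1.eq_or_lt with h | h
      · rw [← h]
        refine ContinuousWithinAt.mono (t := Ici 0) ?_ Icc_subset_Ici_self
        exact ((D.cy.mul D.cw).add D.cA).add (continuousWithinAt_const.mul D.cy)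
      · exact ((((D.dy s h).mul (D.dw s h)).add (D.dA s h)).add
          ((D.dy s h).const_mul C)).continuousAt.continuousWithinAt)
    (fun s h _ => by
      refine HasDerivAt.congr_deriv ((((D.dy s h).mul (D.dw s h)).add (D.dA s h)).add
          ((D.dy s h).const_mul C)) ?_
      ring)
    (fun s h1 h2 => by have := hC s h1 h2.le; linarith)
  simpa [D.y0] using this

lemma le_A0 (t : ℝ) (ht : 0 < t) : D.y t * D.w t ≤ D.A 0 := by
  have h1 := le_of_deriv_nonneg' (F := fun s => -(D.y s * D.w s + D.A s))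
    (F' := fun s => D.y s * D.P s) ht.le
    (by
      intro s hs
      rcases hs.1.eq_or_lt with h | h
      · rw [← h]
        refine ContinuousWithinAt.mono (t := Ici 0) ?_ Icc_subset_Ici_self
        exact ((D.cy.mul D.cw).add D.cA).neg
      · exact (((D.dy s h).mul (D.dw s h)).add (D.dA s h)).neg.continuousAt.continuousWithinAt)
    (fun s h _ => by
      refine HasDerivAt.congr_deriv (((D.dy s h).mul (D.dw s h)).add (D.dA s h)).neg ?_
      ring)
    (fun s h1 _ => (mul_pos (D.ypos s h1) (D.Ppos s h1)).le)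
  have h2 : -D.A t ≤ -0 := le_lim_of_deriv_nonneg (F := fun s => -D.A s)
    (F' := fun s => D.z s * D.w s)
    (fun s hs => (D.dA s (ht.trans_le hs)).neg.congr_deriv (neg_neg _))
    (fun s hs => (mul_pos (D.zpos s (ht.trans_le hs)) (D.wpos s (ht.trans_le hs))).le) D.lA.neg
  simp only [D.y0, zero_mul, zero_add] at h1
  linarith

/-- Pointwise bound in the outer region. -/
lemma yP_le (t : ℝ) (ht : 0 < t) (s : ℝ) (hs : 0 < s) (hst : s ≤ t) :
    D.y s * D.P s ≤ (D.y t * D.P t / D.z t) * ((D.y s / D.y t) ^ (m + 1) *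
      Real.exp (D.y t * D.q t * (1 - D.y s / D.y t) *
        (1 / (D.q t * D.z t) - 1 - D.y s / D.y t / m))) * D.z s := by
  have hm := D.mpos
  have hyt := D.ypos t ht; have hzt := D.zpos t ht; have hqt := D.qpos t ht
  have hys := D.ypos s hs; have hzs := D.zpos s hs; have hqs := D.qpos s hs
  have hPt := D.Ppos t ht
  set σ := D.y s / D.y t with hσ
  have hσ0 : 0 < σ := div_pos hys hyt
  have hσ1 : σ ≤ 1 := (div_le_one hyt).2 (D.y_mono hs hst)
  have hyσ : D.y s = σ * D.y t := by rw [hσ]; field_simp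
  -- concavity
  have h1 : D.y s - D.z t * s ≤ D.y t - D.z t * t :=
    le_of_deriv_nonneg (F := fun r => D.y r - D.z t * r) (F' := fun r => D.z r - D.z t * 1) hst
      (fun r h _ => (D.dy r (hs.trans_le h)).sub ((hasDerivAt_id r).const_mul _))
      (fun r h h' => by have := D.z_anti (hs.trans_le h) h'; linarith)
  have h2 : t - s ≤ (D.y t - D.y s) / D.z t := by
    rw [le_div_iff₀ hzt]; linarith
  -- Bernoulli
  have h3 : D.q s ≤ D.q t * (1 - (1 - σ) / m) := by
    have hm0 : m ≠ 0 := by have := D.hm; omega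
    have hm2 := D.m2
    have hb : 0 ≤ 1 - (1 - σ) / m := by
      rw [sub_nonneg, div_le_one hm]; linarith
    rw [← pow_le_pow_iff_left₀ hqs.le (by positivity) hm0, mul_pow, D.hqy s hs, D.hqy t ht, hyσ,
      mul_comm]
    apply mul_le_mul_of_nonneg_left _ hyt.le
    have := one_add_mul_le_pow (a := -((1 - σ) / m)) (by linarith) m
    have e : (1 : ℝ) + m * -((1 - σ) / m) = σ := by field_simp; ring
    rw [e, ← sub_eq_add_neg] at this
    exact this
  have h4 : D.y s * D.q s - s + D.L ≤ (D.y t * D.q t - t + D.L) +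
      D.y t * D.q t * (1 - σ) * (1 / (D.q t * D.z t) - 1 - σ / m) := by
    have a1 : D.y s * D.q s ≤ D.y s * (D.q t * (1 - (1 - σ) / m)) :=
      mul_le_mul_of_nonneg_left h3 hys.le
    have a2 : D.y t * D.q t * (1 - σ) * (1 / (D.q t * D.z t) - 1 - σ / m)
        = (D.y t - D.y s) / D.z t + D.y s * (D.q t * (1 - (1 - σ) / m)) - D.y t * D.q t := by
      rw [hyσ]; field_simp; ring
    rw [a2]; linarith
  have h5 : D.y s * D.P s ≤ D.y t * D.P t * (σ ^ (m + 1) *
      Real.exp (D.y t * D.q t * (1 - σ) * (1 / (D.q t * D.z t) - 1 - σ / m))) := by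
    rw [D.hP s hs, D.hP t ht]
    have a1 := Real.exp_le_exp.2 h4
    rw [Real.exp_add (D.y t * D.q t - t + D.L)] at a1
    calc D.y s * (D.y s ^ m * Real.exp (D.y s * D.q s - s + D.L))
        ≤ D.y s * (D.y s ^ m * (Real.exp (D.y t * D.q t - t + D.L) *
          Real.exp (D.y t * D.q t * (1 - σ) * (1 / (D.q t * D.z t) - 1 - σ / m)))) := by gcongr
      _ = _ := by rw [hyσ, mul_pow]; ring
  have h6 : D.z t ≤ D.z s := D.z_anti hs hst
  refine h5.trans ?_
  set K := σ ^ (m + 1) * Real.exp (D.y t * D.q t * (1 - σ) * (1 / (D.q t * D.z t) - 1 - σ / m))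
  have hK : 0 ≤ K := by positivity
  calc D.y t * D.P t * K = D.y t * D.P t / D.z t * K * D.z t := by field_simp
    _ ≤ _ := by gcongr

end Data

end Pool.Agent.P.MP_3a5611_an
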