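import Pool.Agent.P.MP_3a5611_an.IBP

/-!
A radial `W^{1,n}_0` function is `y (T x)` with `y` the primitive of a locally integrable `z0`,
and its weak gradient is `-n z0 (T x) x / |x|^2`.
-/

open Filter Topology MeasureTheory Metric Set
open scoped ContDiff RealInnerProductSpace ENNReal

set_option linter.dupNamespace false

namespace Pool.Agent.P.MP_3a5611_an

variable {n : ℕ}

lemma integrableOn_Ioc_of_exp {F : ℝ → ℝ} (hF : IntegrableOn (fun t => Real.exp (-t) * F t) (Ioi 0))
    (b : ℝ) : IntegrableOn F (Ioc 0 b) := by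
  have h1 := (hF.mono_set (Ioc_subset_Ioi_self : Ioc 0 b ⊆ _)).continuousOn_mul_of_subset
    (g := fun t => Real.exp t) (by fun_prop) isCompact_Icc measurableSet_Ioc Ioc_subset_Icc_self
  refine h1.congr (ae_of_all _ fun t => ?_)
  simp only
  rw [← mul_assoc, ← Real.exp_add]; simp

lemma intervalIntegrable_indicator {g : ℝ → ℝ} (hg : ∀ b, IntegrableOn g (Ioc 0 b)) (a b : ℝ) :
    IntervalIntegrable ((Ioi 0).indicator g) volume a b := by
  rw [intervalIntegrable_iff, integrableOn_indicator_iff measurableSet_Ioi]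
  refine (hg (max a b)).mono_set ?_
  rintro x ⟨h1, h2⟩
  exact ⟨h1, h2.2⟩

lemma hasDerivAt_primitive {g : ℝ → ℝ} (hg : Continuous g) (t : ℝ) :
    HasDerivAt (fun t => ∫ s in (0 : ℝ)..t, g s) (g t) t :=
  (hg.integral_hasStrictDerivAt 0 t).hasDerivAt

lemma deriv_primitive {g : ℝ → ℝ} (hg : Continuous g) :
    deriv (fun t => ∫ s in (0 : ℝ)..t, g s) = g := by
  ext t; exact (hasDerivAt_primitive hg t).deriv

lemma contDiff_one_primitive {g : ℝ → ℝ} (hg : Continuous g) :
    ContDiff ℝ 1 fun t => ∫ s in (0 : ℝ)..t, g s := by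
  rw [contDiff_one_iff_deriv, deriv_primitive hg]
  exact ⟨fun t => (hasDerivAt_primitive hg t).differentiableAt, hg⟩

lemma contDiff_infty_primitive {g : ℝ → ℝ} (hg : ContDiff ℝ ∞ g) :
    ContDiff ℝ ∞ fun t => ∫ s in (0 : ℝ)..t, g s := by
  rw [contDiff_infty_iff_deriv, deriv_primitive hg.continuous]
  exact ⟨fun t => (hasDerivAt_primitive hg.continuous t).differentiableAt, hg⟩

lemma primitive_const {g : ℝ → ℝ} (hg : Continuous g) {b : ℝ} (hb : ∀ t, b < t → g t = 0)
    (t : ℝ) (ht : b ≤ t) : ∫ s in (0 : ℝ)..t, g s = ∫ s in (0 : ℝ)..b, g s := by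
  rw [← intervalIntegral.integral_add_adjacent_intervals (hg.intervalIntegrable 0 b)
    (hg.intervalIntegrable b t)]
  have : ∫ s in b..t, g s = 0 := by
    rw [intervalIntegral.integral_of_le ht]
    exact setIntegral_eq_zero_of_forall_eq_zero fun x hx => hb x hx.1
  rw [this, add_zero]

lemma exists_upper {g : ℝ → ℝ} (hg : HasCompactSupport g) :
    ∃ b, 0 ≤ b ∧ ∀ t, b < t → g t = 0 := by
  obtain ⟨b, hb⟩ := hg.isCompact.bddAbove
  refine ⟨max b 0, le_max_right _ _, fun t ht => image_eq_zero_of_notMem_tsupport fun h => ?_⟩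
  have := hb h
  have := le_max_left b 0
  linarith

lemma Test1.integrableOn_mul {χ f : ℝ → ℝ} (hχ : Test1 χ) (hf : ∀ b, IntegrableOn f (Ioc 0 b)) :
    IntegrableOn (fun t => χ t * f t) (Ioi 0) := by
  obtain ⟨b, -, hb⟩ := exists_upper hχ.2.1
  obtain ⟨C, hC⟩ := hχ.1.continuous.bounded_above_of_compact_support hχ.2.1
  have h1 : IntegrableOn (fun t => χ t * f t) (Ioc 0 b) :=
    Integrable.bdd_mul (hf b) hχ.1.continuous.aestronglyMeasurable (ae_of_all _ hC)
  refine h1.of_forall_sdiff_eq_zero measurableSet_Ioi fun t ht => ?_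
  have : χ t = 0 := hb t (lt_of_not_ge fun h => ht.2 ⟨ht.1, h⟩)
  simp [this]

lemma ae_T_pos (hn : 0 < n) : ∀ᵐ x ∂(ballMeasure n), 0 < T n x := by
  filter_upwards [ae_ne_zero hn, ae_norm_lt n] with x h1 h2 using T_pos hn h1 h2

theorem exists_profile (hn : 0 < n) {u : Euc n → ℝ} {Du : Euc n → Euc n}
    (hu : InSobolevZero n u Du) {v : ℝ → ℝ} (hv : ∀ᵐ x ∂(ballMeasure n), u x = v ‖x‖) :
    ∃ z0 : ℝ → ℝ, Measurable z0 ∧ (∀ a b, IntervalIntegrable z0 volume a b) ∧
      Integrable (fun x => z0 (T n x)) (ballMeasure n) ∧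
      ∀ᵐ x ∂(ballMeasure n), u x = ∫ s in (0 : ℝ)..T n x, z0 s := by
  obtain ⟨iu, iD⟩ := hu.integrable hn
  have hn' : (0 : ℝ) < n := by positivity
  have hβ := beta_pos n
  obtain ⟨v0, mv0, hv0⟩ := exists_measurable_profile hn iu hv
  obtain ⟨F, mF, iF, hF⟩ := exists_average hn (integrable_inner iD continuous_id)
  have iv0 : IntegrableOn (fun t => Real.exp (-t) * v0 t) (Ioi 0) :=
    (integrable_T hn mv0.aestronglyMeasurable).1 (iu.congr hv0)
  have lv0 := integrableOn_Ioc_of_exp iv0
  have lF := integrableOn_Ioc_of_exp iF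
  set z0 : ℝ → ℝ := (Ioi 0).indicator fun t => -F t / n with hz0
  have mz0 : Measurable z0 := (mF.neg.div_const _).indicator measurableSet_Ioi
  have hI : ∀ a b, IntervalIntegrable z0 volume a b :=
    intervalIntegrable_indicator fun b => (lF b).neg.div_const _
  have hz0F : ∀ t, 0 < t → z0 t = -F t / n := fun t ht => indicator_of_mem (mem_Ioi.2 ht) _
  refine ⟨z0, mz0, hI, ?_, ?_⟩
  · rw [integrable_T hn mz0.aestronglyMeasurable]
    refine (iF.neg.div_const (n : ℝ)).congr ?_
    filter_upwards [ae_restrict_mem measurableSet_Ioi] with t ht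
    rw [hz0F t ht]; simp only [Pi.neg_apply]; ring
  set y : ℝ → ℝ := fun t => ∫ s in (0 : ℝ)..t, z0 s with hy
  have ycont : Continuous y := intervalIntegral.continuous_primitive hI 0
  have ly : ∀ b, IntegrableOn y (Ioc 0 b) := fun b => (ycont.intervalIntegrable 0 b).1
  suffices H : ∀ᵐ t ∂(volume.restrict (Ioi (0 : ℝ))), v0 t - y t = 0 by
    filter_upwards [ae_T hn H, hv0] with x h1 h2
    rw [h2]; linarith
  apply ae_eq_zero_Ioi fun b => (lv0 b).sub (ly b)
  intro χ hχ
  obtain ⟨b, hb0, hb⟩ := exists_upper hχ.2.1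
  have cχ := hχ.1.continuous
  have hχi : Integrable χ := cχ.integrable_of_hasCompactSupport hχ.2.1
  set H : ℝ → ℝ := fun t => (∫ s in (0 : ℝ)..t, χ s) - ∫ s in (0 : ℝ)..b, χ s with hH
  have H0 : ∀ t, b ≤ t → H t = 0 := fun t ht => by
    simp only [hH]; rw [primitive_const cχ hb t ht, sub_self]
  have HI : ∀ t, 0 < t → H t = -∫ s in Ioi t, χ s := fun t ht => by
    have h1 := intervalIntegral.integral_Ioi_sub_Ioi (hχi.integrableOn (s := Ioi 0)) ht.le
    have h2 := intervalIntegral.integral_Ioi_sub_Ioi (hχi.integrableOn (s := Ioi 0)) hb0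
    have h3 : ∫ s in Ioi b, χ s = 0 := setIntegral_eq_zero_of_forall_eq_zero fun x hx => hb x hx
    simp only [hH]; linarith
  have Hc : ContDiff ℝ 1 H := (contDiff_one_primitive cχ).sub contDiff_const
  set h : ℝ → ℝ := fun t => H t * Real.exp t with hh
  have hc : ContDiff ℝ 1 h := Hc.mul Real.contDiff_exp
  have h0 : ∀ t, b ≤ t → h t = 0 := fun t ht => by simp only [hh]; rw [H0 t ht, zero_mul]
  have hd : ∀ t, h t - deriv h t = -(χ t * Real.exp t) := fun t => by
    have := (((hasDerivAt_primitive cχ t).sub_const (∫ s in (0 : ℝ)..b, χ s)).mul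
      (Real.hasDerivAt_exp t)).deriv
    have e : deriv h t = χ t * Real.exp t + H t * Real.exp t := this
    rw [e]; simp only [hh]; ring
  have key := ibp_radial hn hu hc h0
  have bd : ∃ C, ∀ᵐ x ∂(ballMeasure n), ‖h (T n x)‖ ≤ C := by
    obtain ⟨C, -, hC⟩ := exists_bound_ball (contDiff_rad hn hc h0).continuous
    refine ⟨C, ?_⟩
    filter_upwards [hC, ae_ne_zero hn] with x h1 h2
    rwa [rad_of_ne h2] at h1
  have e1 := hF h hc.continuous.measurable bd
  simp only [id] at e1
  have e2 : ∫ x, u x * (n * (h (T n x) - deriv h (T n x))) ∂(ballMeasure n)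
      = beta n * (-n * ∫ t in Ioi (0 : ℝ), χ t * v0 t) := by
    have := integral_T hn (f := fun t => v0 t * (n * -(χ t * Real.exp t)))
      (Measurable.aestronglyMeasurable (by have := cχ.measurable; fun_prop))
    have a1 : ∫ x, u x * (n * (h (T n x) - deriv h (T n x))) ∂(ballMeasure n)
        = ∫ x, v0 (T n x) * (n * -(χ (T n x) * Real.exp (T n x))) ∂(ballMeasure n) := by
      apply integral_congr_ae
      filter_upwards [hv0] with x hx
      rw [hx, hd]
    rw [a1, this, ← integral_const_mul (-(n : ℝ))]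
    congr 2; ext t
    rw [Real.exp_neg]; field_simp
  -- truncated `z0`
  set zt : ℝ → ℝ := (Iic b).indicator z0 with hzt
  have izt : IntegrableOn zt (Ioi 0) := by
    rw [hzt, integrableOn_indicator_iff measurableSet_Iic, inter_comm, Ioi_inter_Iic]
    exact (hI 0 b).1
  have e3 := fubini_tri hχi.integrableOn izt
  have e4 : ∫ t in Ioi (0 : ℝ), χ t * ∫ s in (0 : ℝ)..t, zt s = ∫ t in Ioi (0 : ℝ), χ t * y t := by
    refine setIntegral_congr_fun measurableSet_Ioi fun t ht => ?_
    rcases le_or_gt t b with h1 | h1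
    · congr 1
      refine intervalIntegral.integral_congr fun s hs => ?_
      rw [uIcc_of_le (le_of_lt ht)] at hs
      exact indicator_of_mem (mem_Iic.2 (hs.2.trans h1)) _
    · simp [hb t h1]
  have e5 : ∫ t in Ioi (0 : ℝ), Real.exp (-t) * (h t * F t)
      = n * ∫ s in Ioi (0 : ℝ), zt s * ∫ t in Ioi s, χ t := by
    rw [← integral_const_mul]
    refine setIntegral_congr_fun measurableSet_Ioi fun t ht => ?_
    rcases le_or_gt t b with h1 | h1
    · have : zt t = -F t / n := by
        rw [← hz0F t ht]; exact indicator_of_mem (mem_Iic.2 h1) _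
      simp only [hh]
      rw [this, HI t ht, Real.exp_neg]
      field_simp
    · have : zt t = 0 := indicator_of_notMem (s := Iic b) (fun h => (not_le.2 h1) h) _
      simp [this, h0 t h1.le]
  simp only [Pi.sub_apply, mul_sub]
  rw [integral_sub (hχ.integrableOn_mul lv0) (hχ.integrableOn_mul ly), ← e4, e3]
  rw [e1, e2, e5] at key
  have : (beta n * n) * ((∫ t in Ioi (0 : ℝ), χ t * v0 t)
      - ∫ s in Ioi (0 : ℝ), zt s * ∫ t in Ioi s, χ t) = 0 := by linarith
  exact (mul_eq_zero.1 this).resolve_left (by positivity)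

lemma density (hn : 0 < n) {a c : Euc n → ℝ} (ha : Continuous a) (hc : Continuous c) {b : ℝ}
    (hb : ∀ᵐ x ∂(ballMeasure n), b < T n x → a x = 0 ∧ c x = 0)
    (h : ∀ g : ℝ → ℝ, Continuous g → HasCompactSupport g →
      ∫ x, ((∫ s in (0 : ℝ)..T n x, g s) * a x + g (T n x) * c x) ∂(ballMeasure n) = 0)
    {g : ℝ → ℝ} (mg : Measurable g) (hI : ∀ a b, IntervalIntegrable g volume a b) :
    ∫ x, ((∫ s in (0 : ℝ)..T n x, g s) * a x + g (T n x) * c x) ∂(ballMeasure n) = 0 := by
  have hβ := beta_pos n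
  obtain ⟨Ca, hCa, ba⟩ := exists_bound_ball ha
  obtain ⟨Cc, hCc, bc⟩ := exists_bound_ball hc
  have hμ : (ballMeasure n).real univ = beta n := by
    simp [ballMeasure, beta, measureReal_def]
  -- the basic bound
  have bound : ∀ d : ℝ → ℝ, Measurable d → (∀ a b, IntervalIntegrable d volume a b) →
      Integrable (fun x => (∫ s in (0 : ℝ)..T n x, d s) * a x + d (T n x) * c x) (ballMeasure n) ∧
      ‖∫ x, ((∫ s in (0 : ℝ)..T n x, d s) * a x + d (T n x) * c x) ∂(ballMeasure n)‖
        ≤ (Ca + Cc) * beta n * ∫ s in Ioc 0 b, |d s| := by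
    intro d md hd
    set δ := ∫ s in Ioc 0 b, |d s| with hδ
    have hdi : IntegrableOn (fun s => |d s|) (Ioc 0 b) := (hd 0 b).1.abs
    set dt : ℝ → ℝ := (Ioc 0 b).indicator fun s => |d s| with hdt
    have mdt : Measurable dt := md.abs.indicator measurableSet_Ioc
    have idt : Integrable dt := hdi.integrable_indicator measurableSet_Ioc
    have dt0 : ∀ t, 0 ≤ dt t := fun t => indicator_nonneg (fun _ _ => abs_nonneg _) t
    have iexp : IntegrableOn (fun t => Real.exp (-t) * dt t) (Ioi 0) := by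
      refine idt.integrableOn.bdd_mul (c := 1) (by fun_prop) ?_
      filter_upwards [ae_restrict_mem measurableSet_Ioi] with t ht
      rw [Real.norm_eq_abs, abs_of_pos (Real.exp_pos _), Real.exp_le_one_iff]
      exact neg_nonpos.2 (le_of_lt ht)
    have idtT := (integrable_T hn mdt.aestronglyMeasurable).2 iexp
    have hdtT : ∫ x, dt (T n x) ∂(ballMeasure n) ≤ beta n * δ := by
      rw [integral_T hn mdt.aestronglyMeasurable]
      gcongr
      calc ∫ t in Ioi (0 : ℝ), Real.exp (-t) * dt t ≤ ∫ t in Ioi (0 : ℝ), dt t := by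
            refine setIntegral_mono_on iexp idt.integrableOn measurableSet_Ioi fun t ht => ?_
            have : Real.exp (-t) ≤ 1 := Real.exp_le_one_iff.2 (neg_nonpos.2 (le_of_lt ht))
            nlinarith [dt0 t]
        _ = δ := by
            rw [hdt, setIntegral_indicator measurableSet_Ioc,
              inter_eq_right.2 Ioc_subset_Ioi_self]
    have iB : Integrable (fun x => δ * Ca + dt (T n x) * Cc) (ballMeasure n) :=
      (integrable_const _).add (idtT.mul_const _)
    have pt : ∀ᵐ x ∂(ballMeasure n), ‖(∫ s in (0 : ℝ)..T n x, d s) * a x + d (T n x) * c x‖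
        ≤ δ * Ca + dt (T n x) * Cc := by
      filter_upwards [ba, bc, hb, ae_T_pos hn] with x h1 h2 h3 h4
      have hδ0 : 0 ≤ δ := integral_nonneg fun _ => abs_nonneg _
      rcases le_or_gt (T n x) b with h5 | h5
      · have e1 : dt (T n x) = |d (T n x)| := indicator_of_mem (mem_Ioc.2 ⟨h4, h5⟩) _
        have e2 : ‖∫ s in (0 : ℝ)..T n x, d s‖ ≤ δ := by
          rw [intervalIntegral.integral_of_le h4.le]
          refine (norm_integral_le_integral_norm _).trans ?_
          exact setIntegral_mono_set hdi (ae_of_all _ fun _ => abs_nonneg _)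
            (Ioc_subset_Ioc_right h5).eventuallyLE
        refine (norm_add_le _ _).trans ?_
        rw [norm_mul, norm_mul, e1, ← Real.norm_eq_abs]
        gcongr
      · obtain ⟨e1, e2⟩ := h3 h5
        rw [e1, e2]
        have := dt0 (T n x)
        simp only [mul_zero, add_zero, norm_zero]
        positivity
    have cd : Continuous fun t => ∫ s in (0 : ℝ)..t, d s :=
      intervalIntegral.continuous_primitive hd 0
    refine ⟨iB.mono' ?_ pt, (norm_integral_le_of_norm_le iB pt).trans ?_⟩
    · exact (((cd.measurable.comp (measurable_T n)).mul ha.measurable).add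
        ((md.comp (measurable_T n)).mul hc.measurable)).aestronglyMeasurable
    · rw [integral_add (integrable_const _) (idtT.mul_const _), integral_const, integral_mul_const,
        hμ, smul_eq_mul]
      nlinarith
  rw [← norm_le_zero_iff]
  refine le_of_forall_pos_le_add fun ε hε => ?_
  have ig : Integrable ((Ioc 0 b).indicator g) := (hI 0 b).1.integrable_indicator measurableSet_Ioc
  have hK : 0 < (Ca + Cc + 1) * beta n := by positivity
  obtain ⟨g', s1, s2, s3, s4⟩ := ig.exists_hasCompactSupport_integral_sub_le (div_pos hε hK)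
  have hI' : ∀ a b, IntervalIntegrable g' volume a b := fun a b => s3.intervalIntegrable a b
  obtain ⟨i1, -⟩ := bound g mg hI
  obtain ⟨i2, -⟩ := bound g' s3.measurable hI'
  obtain ⟨-, b3⟩ := bound (fun s => g s - g' s) (mg.sub s3.measurable) fun a b => (hI a b).sub (hI' a b)
  have e1 : ∫ x, ((∫ s in (0 : ℝ)..T n x, (g s - g' s)) * a x + (g (T n x) - g' (T n x)) * c x)
      ∂(ballMeasure n)
      = ∫ x, ((∫ s in (0 : ℝ)..T n x, g s) * a x + g (T n x) * c x) ∂(ballMeasure n) := by
    have h0 := integral_sub i1 i2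
    rw [h g' s3 s1, sub_zero] at h0
    rw [← h0]
    congr 1; ext x
    rw [intervalIntegral.integral_sub (hI _ _) (hI' _ _)]; ring
  have e2 : ∫ s in Ioc 0 b, |g s - g' s| ≤ ε / ((Ca + Cc + 1) * beta n) := by
    refine le_trans ?_ s2
    calc ∫ s in Ioc 0 b, |g s - g' s| = ∫ s in Ioc 0 b, ‖(Ioc 0 b).indicator g s - g' s‖ := by
          refine setIntegral_congr_fun measurableSet_Ioc fun s hs => ?_
          simp only [indicator_of_mem hs, Real.norm_eq_abs]
      _ ≤ _ := setIntegral_le_integral (ig.sub s4).norm (ae_of_all _ fun _ => norm_nonneg _)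
  rw [e1] at b3
  refine b3.trans ?_
  calc (Ca + Cc) * beta n * ∫ s in Ioc 0 b, |g s - g' s|
      ≤ (Ca + Cc + 1) * beta n * (ε / ((Ca + Cc + 1) * beta n)) := by
        have : 0 ≤ ∫ s in Ioc 0 b, |g s - g' s| := integral_nonneg fun _ => abs_nonneg _
        exact mul_le_mul (mul_le_mul_of_nonneg_right (by linarith) hβ.le) e2 this hK.le
    _ = 0 + ε := by field_simp; ring

theorem gradient_radial (hn : 0 < n) {u : Euc n → ℝ} {Du : Euc n → Euc n}
    (hu : InSobolevZero n u Du) {z0 : ℝ → ℝ} (mz : Measurable z0)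
    (hI : ∀ a b, IntervalIntegrable z0 volume a b)
    (iz : Integrable (fun x => z0 (T n x)) (ballMeasure n))
    (hy : ∀ᵐ x ∂(ballMeasure n), u x = ∫ s in (0 : ℝ)..T n x, z0 s) :
    ∀ᵐ x ∂(ballMeasure n), Du x = (-(n : ℝ) * z0 (T n x) / ‖x‖ ^ 2) • x := by
  obtain ⟨iu, iD⟩ := hu.integrable hn
  have key : ∀ e : Euc n, ∀ᵐ x ∂(ballMeasure n),
      ⟪Du x, e⟫ * ‖x‖ ^ 2 + z0 (T n x) * (n * ⟪x, e⟫) = 0 := by
    intro e
    have i1 : Integrable (fun x => ⟪Du x, e⟫ * ‖x‖ ^ 2) (ballMeasure n) :=
      integrable_mul_continuous (integrable_inner iD continuous_const) (by fun_prop)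
    have i2 : Integrable (fun x => z0 (T n x) * (n * ⟪x, e⟫)) (ballMeasure n) :=
      integrable_mul_continuous iz (by fun_prop)
    have hU : IsOpen (ball (0 : Euc n) 1 \ {0}) := isOpen_ball.sdiff isClosed_singleton
    have := hU.ae_eq_zero_of_integral_contDiff_smul_eq_zero (μ := ballMeasure n)
      (f := fun x => ⟪Du x, e⟫ * ‖x‖ ^ 2 + z0 (T n x) * (n * ⟪x, e⟫))
      ((i1.add i2).locallyIntegrable.locallyIntegrableOn _) ?_
    · filter_upwards [this, ae_ne_zero hn, ae_norm_lt n] with x h1 h2 h3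
      exact h1 ⟨mem_ball_zero_iff.2 h3, h2⟩
    intro g g1 g2 g3
    set φ : Euc n → ℝ := fun x => ‖x‖ ^ 2 * g x with hφ
    have φs : tsupport φ ⊆ tsupport g := tsupport_mul_subset_right
    have φt : IsTest φ := ⟨(contDiff_norm_sq ℝ).mul g1, g2.mul_left,
      φs.trans (g3.trans sdiff_subset)⟩
    obtain ⟨b, hb⟩ := g2.isCompact.bddAbove_image (f := T n) fun x hx =>
      (contDiffAt_T (k := 0) (g3 hx).2).continuousAt.continuousWithinAt
    have ca := continuous_fderiv_apply φt.c1 e
    have cc : Continuous fun x : Euc n => -(n * ⟪x, e⟫) * g x := by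
      have := g1.continuous; fun_prop
    have d := density hn ca cc (b := b) (ae_of_all _ fun x hx => by
        have hx' : x ∉ tsupport g := fun h => (not_le.2 hx) (hb ⟨x, h, rfl⟩)
        have h1 : x ∉ tsupport (fderiv ℝ φ) := fun h => hx' (φs (tsupport_fderiv_subset ℝ h))
        simp [image_eq_zero_of_notMem_tsupport h1, image_eq_zero_of_notMem_tsupport hx'])
      (fun g' c1 c2 => by
        obtain ⟨b', -, hb'⟩ := exists_upper c2
        have hψ := contDiff_rad hn (contDiff_one_primitive c1) (primitive_const c1 hb')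
        have h1 := ibp_test φt hψ e
        rw [eq_neg_iff_add_eq_zero, ← integral_add
          (integrable_mul_continuous (integrable_of_continuous φt.1.continuous)
            (continuous_fderiv_apply hψ e))
          (integrable_mul_continuous (integrable_of_continuous ca) hψ.continuous)] at h1
        refine Eq.trans (integral_congr_ae ?_) h1
        filter_upwards [ae_ne_zero hn] with x hx
        have hx2 : ‖x‖ ^ 2 ≠ 0 := pow_ne_zero _ (norm_ne_zero_iff.2 hx)
        rw [fderiv_rad hx (hasDerivAt_primitive c1 _), rad_of_ne hx]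
        simp only [hφ]
        field_simp
        ring) mz hI
    have h1 := ibp hn hu φt.c1 e
    have i3 : Integrable (fun x => (∫ s in (0 : ℝ)..T n x, z0 s) * fderiv ℝ φ x e) (ballMeasure n) :=
      integrable_mul_continuous (iu.congr hy) ca
    have i4 := integrable_mul_continuous iz cc
    have i5 := integrable_mul_continuous (integrable_inner iD (continuous_const (y := e)))
      φt.1.continuous
    rw [integral_add i3 i4] at d
    have e1 : ∫ x, u x * fderiv ℝ φ x e ∂(ballMeasure n)
        = ∫ x, (∫ s in (0 : ℝ)..T n x, z0 s) * fderiv ℝ φ x e ∂(ballMeasure n) := by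
      apply integral_congr_ae
      filter_upwards [hy] with x hx
      rw [hx]
    have e2 : ∫ x, g x • (⟪Du x, e⟫ * ‖x‖ ^ 2 + z0 (T n x) * (n * ⟪x, e⟫)) ∂(ballMeasure n)
        = ∫ x, ⟪Du x, e⟫ * φ x ∂(ballMeasure n)
          - ∫ x, z0 (T n x) * (-(n * ⟪x, e⟫) * g x) ∂(ballMeasure n) := by
      rw [← integral_sub i5 i4]
      congr 1; ext x; simp only [hφ, smul_eq_mul]; ring
    rw [e2]; linarith
  set B := EuclideanSpace.basisFun (Fin n) ℝ
  filter_upwards [ae_all_iff.2 fun i => key (B i), ae_ne_zero hn] with x h1 hx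
  have hx2 : ‖x‖ ^ 2 ≠ 0 := pow_ne_zero _ (norm_ne_zero_iff.2 hx)
  apply InnerProductSpace.ext_inner_right_basis B.toBasis
  intro i
  rw [OrthonormalBasis.coe_toBasis, real_inner_smul_left]
  have := h1 i
  field_simp
  linarith

end Pool.Agent.P.MP_3a5611_an
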