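import Pool.Agent.P.MP_3a5611_an.Defs

/-!
The Emden-Fowler variable `T x = -n log |x|` pushes Lebesgue measure on the unit ball to
`β e^(-t) dt` on `(0, ∞)`, where `β` is the volume of the ball.
-/

open Filter Topology MeasureTheory Metric Set
open scoped ContDiff RealInnerProductSpace

set_option linter.dupNamespace false

namespace Pool.Agent.P.MP_3a5611_an

abbrev Euc (n : ℕ) := EuclideanSpace ℝ (Fin n)

noncomputable def T (n : ℕ) (x : Euc n) : ℝ := -(n : ℝ) * Real.log ‖x‖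

noncomputable def beta (n : ℕ) : ℝ := (volume : Measure (Euc n)).real (ball 0 1)

noncomputable def nu (n : ℕ) : Measure ℝ :=
  (volume.restrict (Ioi (0 : ℝ))).withDensity fun t => ENNReal.ofReal (beta n * Real.exp (-t))

instance (n : ℕ) : IsFiniteMeasure (ballMeasure n) :=
  isFiniteMeasure_restrict.2 measure_ball_lt_top.ne

lemma beta_pos (n : ℕ) : 0 < beta n :=
  ENNReal.toReal_pos (measure_ball_pos _ _ one_pos).ne' measure_ball_lt_top.ne

lemma vol_ball_eq (n : ℕ) : (volume : Measure (Euc n)) (ball 0 1) = ENNReal.ofReal (beta n) :=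
  (ENNReal.ofReal_toReal measure_ball_lt_top.ne).symm

@[fun_prop]
lemma measurable_T (n : ℕ) : Measurable (T n) := by unfold T; fun_prop

variable {n : ℕ}

lemma exp_neg_T {x : Euc n} (hx : x ≠ 0) : Real.exp (-T n x) = ‖x‖ ^ n := by
  unfold T
  rw [neg_mul, neg_neg, Real.exp_nat_mul, Real.exp_log (norm_pos_iff.2 hx)]

lemma exp_T_div (hn : 0 < n) {x : Euc n} (hx : x ≠ 0) : Real.exp (-T n x / n) = ‖x‖ := by
  have : (n : ℝ) ≠ 0 := by positivity
  unfold T
  rw [neg_mul, neg_neg, mul_div_cancel_left₀ _ this, Real.exp_log (norm_pos_iff.2 hx)]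

lemma le_T_iff (hn : 0 < n) {x : Euc n} (hx : x ≠ 0) (a : ℝ) :
    a ≤ T n x ↔ ‖x‖ ≤ Real.exp (-a / n) := by
  have hn' : (0 : ℝ) < n := by positivity
  rw [← exp_T_div hn hx, Real.exp_le_exp, div_le_div_iff_of_pos_right hn', neg_le_neg_iff]

lemma lt_T_iff (hn : 0 < n) {x : Euc n} (hx : x ≠ 0) (a : ℝ) :
    a < T n x ↔ ‖x‖ < Real.exp (-a / n) := by
  have hn' : (0 : ℝ) < n := by positivity
  rw [← exp_T_div hn hx, Real.exp_lt_exp, div_lt_div_iff_of_pos_right hn', neg_lt_neg_iff]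

lemma T_pos (hn : 0 < n) {x : Euc n} (hx : x ≠ 0) (hx1 : ‖x‖ < 1) : 0 < T n x := by
  rw [lt_T_iff hn hx]; simpa using hx1

lemma vol_ae_ne_zero (hn : 0 < n) : ∀ᵐ x ∂(volume : Measure (Euc n)), x ≠ 0 := by
  have : Nonempty (Fin n) := ⟨⟨0, hn⟩⟩
  simp [ae_iff]

lemma ae_ne_zero (hn : 0 < n) : ∀ᵐ x ∂(ballMeasure n), x ≠ 0 :=
  ae_restrict_of_ae (vol_ae_ne_zero hn)

lemma ae_norm_lt (n : ℕ) : ∀ᵐ x ∂(ballMeasure n), ‖x‖ < 1 := by
  filter_upwards [ae_restrict_mem (μ := volume) (s := ball (0 : Euc n) 1) measurableSet_ball]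
    with x hx
  simpa using hx

lemma lintegral_exp (n : ℕ) (c : ℝ) :
    ∫⁻ t in Ioi c, ENNReal.ofReal (beta n * Real.exp (-t))
      = ENNReal.ofReal (beta n * Real.exp (-c)) := by
  rw [← ofReal_integral_eq_lintegral_ofReal, integral_const_mul, integral_exp_neg_Ioi]
  · have := (integrableOn_exp_mul_Ioi (a := -1) (by norm_num) c).const_mul (beta n)
    simpa using this
  · exact ae_of_all _ fun t => by have := beta_pos n; positivity

theorem map_T (hn : 0 < n) : (ballMeasure n).map (T n) = nu n := by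
  apply Measure.ext_of_Ici
  intro a
  rw [Measure.map_apply (measurable_T n) measurableSet_Ici, nu, withDensity_apply _ measurableSet_Ici,
    Measure.restrict_restrict measurableSet_Ici, ballMeasure,
    Measure.restrict_apply (measurable_T n measurableSet_Ici)]
  rcases le_or_gt a 0 with ha | ha
  · have h1 : Ici a ∩ Ioi (0 : ℝ) = Ioi 0 := inter_eq_right.2 fun x hx => ha.trans (le_of_lt hx)
    have h2 : (T n ⁻¹' Ici a ∩ ball 0 1 : Set (Euc n)) =ᵐ[volume] ball 0 1 := by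
      filter_upwards [vol_ae_ne_zero hn] with x hx
      simp only [eq_iff_iff]
      refine ⟨fun h => h.2, fun h => ⟨?_, h⟩⟩
      exact ha.trans (T_pos hn hx (mem_ball_zero_iff.1 h)).le
    rw [h1, lintegral_exp, measure_congr h2, vol_ball_eq]; simp
  · have h1 : Ici a ∩ Ioi (0 : ℝ) = Ici a := inter_eq_left.2 fun x hx => ha.trans_le hx
    have hn' : (0 : ℝ) < n := by positivity
    have h2 : (T n ⁻¹' Ici a ∩ ball 0 1 : Set (Euc n))
        =ᵐ[volume] closedBall 0 (Real.exp (-a / n)) := by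
      filter_upwards [vol_ae_ne_zero hn] with x hx
      simp only [eq_iff_iff]
      have h3 := le_T_iff hn hx a
      refine ⟨fun h => mem_closedBall_zero_iff.2 (h3.1 h.1), fun h => ?_⟩
      have h4 := mem_closedBall_zero_iff.1 h
      refine ⟨h3.2 h4, mem_ball_zero_iff.2 (h4.trans_lt ?_)⟩
      rw [Real.exp_lt_one_iff]
      exact div_neg_of_neg_of_pos (by linarith) hn'
    rw [h1, ← Measure.restrict_congr_set Ioi_ae_eq_Ici, lintegral_exp, measure_congr h2,
      Measure.addHaar_closedBall _ _ (Real.exp_pos _).le, vol_ball_eq,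
      ← ENNReal.ofReal_mul (by positivity), finrank_euclideanSpace_fin, ← Real.exp_nat_mul,
      mul_comm]
    congr 3
    field_simp

lemma nu_ac (n : ℕ) : nu n ≪ volume.restrict (Ioi (0 : ℝ)) := withDensity_absolutelyContinuous _ _

lemma ac_nu (n : ℕ) : volume.restrict (Ioi (0 : ℝ)) ≪ nu n := by
  apply withDensity_absolutelyContinuous' (by fun_prop)
  refine ae_of_all _ fun t => ?_
  have := beta_pos n
  simp only [ne_eq, ENNReal.ofReal_eq_zero, not_le]
  positivity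

lemma integral_T (hn : 0 < n) {f : ℝ → ℝ}
    (hf : AEStronglyMeasurable f (volume.restrict (Ioi (0 : ℝ)))) :
    ∫ x, f (T n x) ∂(ballMeasure n) = beta n * ∫ t in Ioi (0 : ℝ), Real.exp (-t) * f t := by
  rw [← integral_map (measurable_T n).aemeasurable (by rw [map_T hn]; exact hf.mono_ac (nu_ac n)),
    map_T hn, nu, integral_withDensity_eq_integral_toReal_smul (by fun_prop) (by simp),
    ← integral_const_mul]
  congr 1; ext t
  have := beta_pos n
  rw [ENNReal.toReal_ofReal (by positivity), smul_eq_mul, mul_assoc]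

lemma integrable_T (hn : 0 < n) {f : ℝ → ℝ}
    (hf : AEStronglyMeasurable f (volume.restrict (Ioi (0 : ℝ)))) :
    Integrable (fun x => f (T n x)) (ballMeasure n) ↔
      IntegrableOn (fun t => Real.exp (-t) * f t) (Ioi 0) := by
  have h := integrable_map_measure (μ := ballMeasure n) (f := T n) (g := f)
    (by rw [map_T hn]; exact hf.mono_ac (nu_ac n)) (measurable_T n).aemeasurable
  rw [Function.comp_def] at h
  rw [← h, map_T hn, nu, integrable_withDensity_iff_integrable_smul' (by fun_prop) (by simp)]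
  have hb := beta_pos n
  have e : (fun t => (ENNReal.ofReal (beta n * Real.exp (-t))).toReal • f t)
      = fun t => beta n * (Real.exp (-t) * f t) := by
    ext t; rw [ENNReal.toReal_ofReal (by positivity), smul_eq_mul, mul_assoc]
  rw [e, integrable_const_mul_iff (IsUnit.mk0 _ hb.ne')]
  rfl

lemma ae_T (hn : 0 < n) {p : ℝ → Prop} (h : ∀ᵐ t ∂(volume.restrict (Ioi (0 : ℝ))), p t) :
    ∀ᵐ x ∂(ballMeasure n), p (T n x) := by
  apply ae_of_ae_map (measurable_T n).aemeasurable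
  rw [map_T hn]
  exact (nu_ac n).ae_le h

lemma ae_of_ae_T (hn : 0 < n) {p : ℝ → Prop} (hp : MeasurableSet {t | p t})
    (h : ∀ᵐ x ∂(ballMeasure n), p (T n x)) : ∀ᵐ t ∂(volume.restrict (Ioi (0 : ℝ))), p t := by
  apply (ac_nu n).ae_le
  rw [← map_T hn]
  exact (ae_map_iff (measurable_T n).aemeasurable hp).2 h

lemma exists_measurable_profile (hn : 0 < n) {u : Euc n → ℝ} (hu : Integrable u (ballMeasure n))
    {v : ℝ → ℝ} (hv : ∀ᵐ x ∂(ballMeasure n), u x = v ‖x‖) :
    ∃ v0 : ℝ → ℝ, Measurable v0 ∧ ∀ᵐ x ∂(ballMeasure n), u x = v0 (T n x) := by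
  have : Nonempty (Fin n) := ⟨⟨0, hn⟩⟩
  have hn' : (0 : ℝ) < n := by positivity
  have h1 : IntegrableOn (fun x : Euc n => v ‖x‖) (ball 0 1) volume := hu.congr hv
  rw [integrableOn_fun_norm_addHaar] at h1
  have h2 := h1.aestronglyMeasurable
  set k := Module.finrank ℝ (Euc n) - 1
  have h3 : ∀ᵐ r ∂(volume : Measure ℝ), r ∈ Ioo (0 : ℝ) 1 → r ^ k • v r = h2.mk _ r :=
    (ae_restrict_iff' measurableSet_Ioo).1 h2.ae_eq_mk
  have h4 : ∀ᵐ t ∂(volume : Measure ℝ), Real.exp (-t / n) ∈ Ioo (0 : ℝ) 1 →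
      Real.exp (-t / n) ^ k • v (Real.exp (-t / n)) = h2.mk _ (Real.exp (-t / n)) := by
    rw [ae_iff] at h3 ⊢
    have h5 := addHaar_image_eq_zero_of_differentiableOn_of_addHaar_eq_zero (μ := volume)
      (f := fun r : ℝ => -(n : ℝ) * Real.log r) (s := {r | ¬(r ∈ Ioo (0 : ℝ) 1 →
        r ^ k • v r = h2.mk _ r)}) (fun r hr => by
          have : r ≠ 0 := by
            simp only [mem_ofPred_eq, Classical.not_imp] at hr
            exact hr.1.1.ne'
          exact ((Real.differentiableAt_log this).const_mul _).differentiableWithinAt) h3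
    refine measure_mono_null (fun t ht => ?_) h5
    refine ⟨Real.exp (-t / n), ht, ?_⟩
    simp only [Real.log_exp]
    field_simp
  refine ⟨fun t => h2.mk _ (Real.exp (-t / n)) / Real.exp (-t / n) ^ k, ?_, ?_⟩
  · have := h2.stronglyMeasurable_mk.measurable
    fun_prop
  · filter_upwards [hv, ae_T hn (ae_restrict_of_ae h4), ae_ne_zero hn, ae_norm_lt n]
      with x h5 h6 h7 h8
    have hx : 0 < ‖x‖ := norm_pos_iff.2 h7
    rw [exp_T_div hn h7] at h6 ⊢
    rw [← h6 ⟨hx, h8⟩, h5, smul_eq_mul]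
    field_simp

lemma hasFDerivAt_T {x : Euc n} (hx : x ≠ 0) :
    HasFDerivAt (T n) ((-(n : ℝ) / ‖x‖ ^ 2) • innerSL ℝ x) x := by
  have hx2 : ‖x‖ ^ 2 ≠ 0 := pow_ne_zero _ (norm_ne_zero_iff.2 hx)
  have h1 := (((hasStrictFDerivAt_norm_sq x).hasFDerivAt).log hx2).const_mul (-(n : ℝ) / 2)
  have e : T n = fun y : Euc n => -(n : ℝ) / 2 * Real.log (‖y‖ ^ 2) := by
    ext y; unfold T; rw [Real.log_pow]; push_cast; ring
  rw [e]
  refine h1.congr_fderiv ?_
  ext y
  simp only [smul_apply, smul_eq_mul, nsmul_eq_mul, Nat.cast_ofNat]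
  field_simp

lemma contDiffAt_T {k : WithTop ℕ∞} {x : Euc n} (hx : x ≠ 0) : ContDiffAt ℝ k (T n) x := by
  unfold T
  exact contDiffAt_const.mul ((contDiffAt_norm ℝ hx).log (norm_ne_zero_iff.2 hx))

open Classical in
/-- The radial function with profile `Ψ` in the variable `T`, equal to `c` at the origin. -/
noncomputable def rad (n : ℕ) (Ψ : ℝ → ℝ) (c : ℝ) (x : Euc n) : ℝ :=
  if x = 0 then c else Ψ (T n x)

lemma rad_of_ne {Ψ : ℝ → ℝ} {c : ℝ} {x : Euc n} (hx : x ≠ 0) : rad n Ψ c x = Ψ (T n x) :=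
  if_neg hx

lemma rad_eventuallyEq {Ψ : ℝ → ℝ} {c : ℝ} {x : Euc n} (hx : x ≠ 0) :
    rad n Ψ c =ᶠ[𝓝 x] fun y => Ψ (T n y) := by
  filter_upwards [isOpen_ne.mem_nhds hx] with y hy using rad_of_ne hy

lemma contDiff_rad (hn : 0 < n) {k : WithTop ℕ∞} {Ψ : ℝ → ℝ} (hΨ : ContDiff ℝ k Ψ) {b c : ℝ}
    (hb : ∀ t, b ≤ t → Ψ t = c) : ContDiff ℝ k (rad n Ψ c) := by
  rw [contDiff_iff_contDiffAt]
  intro x
  by_cases hx : x = 0
  · subst hx
    refine (contDiffAt_const (c := c)).congr_of_eventuallyEq ?_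
    filter_upwards [ball_mem_nhds (0 : Euc n) (Real.exp_pos (-b / n))] with y hy
    by_cases hy0 : y = 0
    · simp [rad, hy0]
    · rw [rad_of_ne hy0]
      exact hb _ ((le_T_iff hn hy0 b).2 (mem_ball_zero_iff.1 hy).le)
  · exact (hΨ.contDiffAt.comp x (contDiffAt_T hx)).congr_of_eventuallyEq (rad_eventuallyEq hx)

lemma hasFDerivAt_rad {Ψ : ℝ → ℝ} {c d : ℝ} {x : Euc n} (hx : x ≠ 0)
    (hΨ : HasDerivAt Ψ d (T n x)) :
    HasFDerivAt (rad n Ψ c) (d • ((-(n : ℝ) / ‖x‖ ^ 2) • innerSL ℝ x)) x :=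
  (hΨ.comp_hasFDerivAt x (hasFDerivAt_T hx)).congr_of_eventuallyEq (rad_eventuallyEq hx)

lemma fderiv_rad {Ψ : ℝ → ℝ} {c d : ℝ} {x : Euc n} (hx : x ≠ 0)
    (hΨ : HasDerivAt Ψ d (T n x)) (e : Euc n) :
    fderiv ℝ (rad n Ψ c) x e = d * (-(n : ℝ) / ‖x‖ ^ 2 * ⟪x, e⟫) := by
  rw [(hasFDerivAt_rad hx hΨ).fderiv]
  simp

lemma sphereArea_eq (hn : 0 < n) : sphereArea n = n * beta n := by
  have : Nonempty (Fin n) := ⟨⟨0, hn⟩⟩
  have hn' : (0 : ℝ) < n := by positivity
  have hG : 0 < Real.Gamma ((n : ℝ) / 2) := Real.Gamma_pos_of_pos (by positivity)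
  unfold sphereArea beta
  rw [measureReal_def, EuclideanSpace.volume_ball, Fintype.card_fin, ENNReal.ofReal_one, one_pow,
    one_mul, Real.Gamma_add_one (by positivity), ENNReal.toReal_ofReal (by positivity),
    Real.sqrt_eq_rpow, ← Real.rpow_natCast, ← Real.rpow_mul Real.pi_pos.le]
  rw [show (1 : ℝ) / 2 * n = n / 2 by ring]
  field_simp

end Pool.Agent.P.MP_3a5611_an
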